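import Pool.Agent.helper47.VD.SpecA1b

/-!
# Project VD (MP_07c750_an), row AQSC: the synthesis
-/

set_option autoImplicit false

open scoped ContDiff Topology InnerProductSpace ComplexConjugate ENNReal
open MeasureTheory Filter Set

namespace Pool.Agent.VD

open Pool.Agent.VQ (CH)

noncomputable section

/-- the properties of the packets and of the measures which are used -/
structure AQSC_H (Γ : Type) {d : ℕ} [Group Γ] [MulAction Γ (V d)] (W : Set (YS Γ d)) (r0 C : ℝ) (g : YS Γ d → V d → ℂ) : Prop where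
  cont : ∀ γ : Γ, Continuous fun x : P d × V d => g ((γ, x.1) : YS Γ d) x.2
  supp : ∀ (y : YS Γ d) (z : V d), g y z ≠ 0 → ‖y.1⁻¹ • z‖ ≤ r0
  bd : ∀ (y : YS Γ d) (z : V d), ‖g y z‖ ≤ C
  inv : ∀ (γ : Γ) (y : YS Γ d) (z : V d), g (γ • y) (γ • z) = g y z
  meas : Measurable (Function.uncurry g)
  mp : ∀ γ : Γ, MeasurePreserving (fun y : YS Γ d => γ • y) (mY Γ d) (mY Γ d)
  Wm : MeasurableSet W
  Wi : ∀ (γ : Γ) (y : YS Γ d), γ • y ∈ W ↔ y ∈ W
  int : ∀ (S : Finset Γ) (c : ℝ), Integrable (Set.indicator {y : YS Γ d | y.1 ∈ S} fun _ => c) ((mY Γ d).restrict W)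
  fin : ∀ r : ℝ, ∃ S : Finset Γ, ∀ (γ : Γ) (z : V d), ‖z‖ ≤ r → ‖γ⁻¹ • z‖ ≤ r0 → γ ∈ S
  act : ∀ γ : Γ, Continuous fun z : V d => γ • z

section main
variable {Γ : Type} {d : ℕ} [Group Γ] [MulAction Γ (V d)] {W : Set (YS Γ d)} {r0 C : ℝ} {g : YS Γ d → V d → ℂ}

theorem AQSC_C (h : AQSC_H Γ W r0 C g) : 0 ≤ C := (norm_nonneg _).trans (h.bd ((1 : Γ), (0 : P d)) 0)

theorem AQSC_meas (h : AQSC_H Γ W r0 C g) {v : YS Γ d → ℂ} (hv : Measurable v) (z : V d) : Measurable fun y => v y * g y z := by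
  have h1 : Measurable fun y : YS Γ d => g y z := h.meas.comp (measurable_id.prodMk measurable_const)
  exact hv.mul h1

theorem AQSC_dom (h : AQSC_H Γ W r0 C g) {v : YS Γ d → ℂ} {b : ℝ} (hb : ∀ y, ‖v y‖ ≤ b) {r : ℝ} {S : Finset Γ}
    (hS : ∀ (γ : Γ) (z : V d), ‖z‖ ≤ r → ‖γ⁻¹ • z‖ ≤ r0 → γ ∈ S) {z : V d} (hz : ‖z‖ ≤ r) (y : YS Γ d) :
    ‖v y * g y z‖ ≤ Set.indicator {y : YS Γ d | y.1 ∈ S} (fun _ => b * C) y := by
  have hb0 : 0 ≤ b := (norm_nonneg _).trans (hb y)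
  by_cases h0 : g y z = 0
  · rw [h0, mul_zero, norm_zero]
    exact Set.indicator_nonneg (fun _ _ => mul_nonneg hb0 (AQSC_C h)) y
  · have h1 : y ∈ {y : YS Γ d | y.1 ∈ S} := hS y.1 z hz (h.supp y z h0)
    rw [Set.indicator_of_mem h1, norm_mul]
    exact mul_le_mul (hb y) (h.bd y z) (norm_nonneg _) hb0

theorem AQSC_int (h : AQSC_H Γ W r0 C g) {v : YS Γ d → ℂ} (hv : Measurable v) {b : ℝ} (hb : ∀ y, ‖v y‖ ≤ b) (z : V d) :
    Integrable (fun y => v y * g y z) ((mY Γ d).restrict W) := by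
  obtain ⟨S, hS⟩ := h.fin ‖z‖
  exact (h.int S (b * C)).mono' (AQSC_meas h hv z).aestronglyMeasurable (Eventually.of_forall fun y => AQSC_dom h hb hS le_rfl y)

theorem AQSC_cont (h : AQSC_H Γ W r0 C g) {v : YS Γ d → ℂ} (hv : Measurable v) {b : ℝ} (hb : ∀ y, ‖v y‖ ≤ b) :
    Continuous fun z => ∫ y in W, v y * g y z ∂mY Γ d := by
  rw [continuous_iff_continuousAt]
  intro z₀
  obtain ⟨S, hS⟩ := h.fin (‖z₀‖ + 1)
  refine continuousAt_of_dominated (bound := Set.indicator {y : YS Γ d | y.1 ∈ S} fun _ => b * C) ?_ ?_ (h.int S (b * C)) ?_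
  · exact Eventually.of_forall fun z => (AQSC_meas h hv z).aestronglyMeasurable
  · filter_upwards [Metric.ball_mem_nhds z₀ one_pos] with z hz
    refine Eventually.of_forall fun y => AQSC_dom h hb hS ?_ y
    have h1 : ‖z - z₀‖ < 1 := by
      rw [← dist_eq_norm]
      exact hz
    have h2 : ‖z‖ ≤ ‖z - z₀‖ + ‖z₀‖ := by
      have h3 := norm_add_le (z - z₀) z₀
      rwa [sub_add_cancel] at h3
    linarith
  · refine Eventually.of_forall fun y => ?_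
    have h1 : Continuous fun z : V d => g ((y.1, y.2) : YS Γ d) z := (h.cont y.1).comp (continuous_const.prodMk continuous_id)
    exact (continuous_const.mul h1).continuousAt

theorem AQSC_inv (h : AQSC_H Γ W r0 C g) {v : YS Γ d → ℂ} (hv : Measurable v) (γ : Γ) (hi : ∀ y : YS Γ d, v (γ • y) = v y) (z : V d) :
    ∫ y in W, v y * g y (γ • z) ∂mY Γ d = ∫ y in W, v y * g y z ∂mY Γ d := by
  have h1 := (h.mp γ).restrict_preimage h.Wm
  have h2 : (fun y : YS Γ d => γ • y) ⁻¹' W = W := by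
    ext y
    exact h.Wi γ y
  rw [h2] at h1
  have h3 := integral_map (μ := (mY Γ d).restrict W) h1.measurable.aemeasurable (AQSC_meas h hv (γ • z)).aestronglyMeasurable
  rw [h1.map_eq] at h3
  rw [h3]
  refine integral_congr_ae (Eventually.of_forall fun y => ?_)
  show v (γ • y) * g (γ • y) (γ • z) = v y * g y z
  rw [hi, h.inv]

theorem AQSC_supp (h : AQSC_H Γ W r0 C g) {v : YS Γ d → ℂ} {S : Finset Γ} (hS : ∀ y : YS Γ d, v y ≠ 0 → y.1 ∈ S) :
    ∃ b : ℝ, ∀ z, ∫ y in W, v y * g y z ∂mY Γ d ≠ 0 → ‖z‖ ≤ b := by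
  have h1 : ∀ γ : Γ, ∃ c : ℝ, 0 ≤ c ∧ ∀ x ∈ Metric.closedBall (0 : V d) r0, ‖γ • x‖ ≤ c := by
    intro γ
    obtain ⟨c, hc⟩ := (isCompact_closedBall (0 : V d) r0).exists_bound_of_continuousOn (h.act γ).continuousOn
    exact ⟨max c 0, le_max_right _ _, fun x hx => (hc x hx).trans (le_max_left _ _)⟩
  choose c hc0 hc using h1
  refine ⟨∑ γ ∈ S, c γ, fun z hz => ?_⟩
  have h2 : ∃ y, v y * g y z ≠ 0 := by
    by_contra h0
    push Not at h0
    apply hz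
    rw [integral_congr_ae (Eventually.of_forall h0), integral_zero]
  obtain ⟨y, hy⟩ := h2
  have h3 := hS y (left_ne_zero_of_mul hy)
  have h4 := h.supp y z (right_ne_zero_of_mul hy)
  have h5 := hc y.1 (y.1⁻¹ • z) (mem_closedBall_zero_iff.2 h4)
  rw [smul_inv_smul] at h5
  exact h5.trans (Finset.single_le_sum (f := c) (fun γ _ => hc0 γ) h3)

end main

theorem AQSC_proof (h1 : AQSA_stmt) (h2 : AMVI_stmt) (h3 : ADMD_stmt) (h4 : AMYS_stmt) (h5 : ASGF_stmt) : AQSC_stmt := by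
  intro d Γ _ _ K k B r0 χ ch ζ hK hχ hch hζ hζ1
  obtain ⟨R0, hR0, hA⟩ := h1 d Γ K k B r0 χ ch ζ hK hχ hch hζ hζ1
  refine ⟨R0, hR0, fun R G hR hG => ?_⟩
  obtain ⟨a1, a2, a3, a4, a5, -⟩ := hA R G hR hG
  have : Countable Γ := (h2 d Γ K k B G hK hG).1
  obtain ⟨-, b1, -, -, b2, b3⟩ := h3 d Γ K k B G hK hG
  obtain ⟨w1, w2, w3⟩ := b2 r0 2 R
  obtain ⟨-, -, m1, -, -, m2⟩ := h4 d Γ
  have hact : ∀ γ : Γ, Continuous fun z : V d => γ • z := fun γ => (hK.smooth γ).continuous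
  have hint : ∀ (S : Finset Γ) (c : ℝ), Integrable (Set.indicator {y : YS Γ d | y.1 ∈ S} fun _ => c) ((mY Γ d).restrict (GW Γ G r0 2 R)) := by
    intro S c
    have hS : MeasurableSet {y : YS Γ d | y.1 ∈ S} := m1 (S : Set Γ)
    have e1 : Integrable (Set.indicator (GW Γ G r0 2 R) (Set.indicator {y : YS Γ d | y.1 ∈ S} fun _ => (c : ℂ))) (mY Γ d) := by
      refine (m2 _ S ((measurable_const.indicator hS).indicator w1) ?_ ?_).1
      · intro y hy
        have e2 : Set.indicator {y : YS Γ d | y.1 ∈ S} (fun _ => (c : ℂ)) y ≠ 0 := by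
          intro e3
          apply hy
          by_cases e4 : y ∈ GW Γ G r0 2 R
          · rw [Set.indicator_of_mem e4, e3]
          · rw [Set.indicator_of_notMem e4]
        by_contra e4
        have e5 : y ∉ {y : YS Γ d | y.1 ∈ S} := e4
        exact e2 (Set.indicator_of_notMem e5 _)
      · intro γ hγ
        have e5 : (fun p : P d => Set.indicator (GW Γ G r0 2 R) (Set.indicator {y : YS Γ d | y.1 ∈ S} fun _ => (c : ℂ)) ((γ, p) : YS Γ d)) =
            Set.indicator {p : P d | ‖p.1‖ ≤ r0 ∧ |Ep G p| ≤ 2 * R ^ (-(1 / 4) : ℝ)} (fun _ => (c : ℂ)) := by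
          funext p
          by_cases e6 : ‖p.1‖ ≤ r0 ∧ |Ep G p| ≤ 2 * R ^ (-(1 / 4) : ℝ)
          · have e7 : ((γ, p) : YS Γ d) ∈ GW Γ G r0 2 R := e6
            have e8 : ((γ, p) : YS Γ d) ∈ {y : YS Γ d | y.1 ∈ S} := hγ
            have e9 : p ∈ {p : P d | ‖p.1‖ ≤ r0 ∧ |Ep G p| ≤ 2 * R ^ (-(1 / 4) : ℝ)} := e6
            have e14 : Set.indicator {p : P d | ‖p.1‖ ≤ r0 ∧ |Ep G p| ≤ 2 * R ^ (-(1 / 4) : ℝ)} (fun _ => (c : ℂ)) p = (c : ℂ) := Set.indicator_of_mem e9 _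
            rw [e14]
            exact (Set.indicator_of_mem e7 _).trans (Set.indicator_of_mem e8 _)
          · have e7 : ((γ, p) : YS Γ d) ∉ GW Γ G r0 2 R := e6
            have e9 : p ∉ {p : P d | ‖p.1‖ ≤ r0 ∧ |Ep G p| ≤ 2 * R ^ (-(1 / 4) : ℝ)} := e6
            exact (Set.indicator_of_notMem e7 _).trans (Set.indicator_of_notMem e9 _).symm
        rw [e5]
        have e10 : MeasurableSet {p : P d | ‖p.1‖ ≤ r0 ∧ |Ep G p| ≤ 2 * R ^ (-(1 / 4) : ℝ)} := by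
          have e11 : @Measurable (P d) (YS Γ d) _ _ (fun p => (γ, p)) := @measurable_prodMk_left Γ (P d) ⊤ inferInstance γ
          exact e11 w1
        rw [integrable_indicator_iff e10]
        exact integrableOn_const w3.ne
    rw [integrable_indicator_iff w1] at e1
    have e12 : Integrable (fun y => (Set.indicator {y : YS Γ d | y.1 ∈ S} (fun _ => (c : ℂ)) y).re) ((mY Γ d).restrict (GW Γ G r0 2 R)) := Integrable.re e1
    refine e12.congr (Eventually.of_forall fun y => ?_)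
    show (Set.indicator {y : YS Γ d | y.1 ∈ S} (fun _ => (c : ℂ)) y).re = Set.indicator {y : YS Γ d | y.1 ∈ S} (fun _ => c) y
    by_cases e13 : y ∈ {y : YS Γ d | y.1 ∈ S}
    · rw [Set.indicator_of_mem e13, Set.indicator_of_mem e13, Complex.ofReal_re]
    · rw [Set.indicator_of_notMem e13, Set.indicator_of_notMem e13, Complex.zero_re]
  have hfin : ∀ r : ℝ, ∃ S : Finset Γ, ∀ (γ : Γ) (z : V d), ‖z‖ ≤ r → ‖γ⁻¹ • z‖ ≤ r0 → γ ∈ S := by
    intro r
    obtain ⟨f1, f2, -⟩ := h5 d Γ K hK (max r r0) 0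
    refine ⟨f1.toFinset, fun γ z hz hz1 => ?_⟩
    rw [Set.Finite.mem_toFinset]
    have f3 : γ⁻¹ ∈ SG Γ d (max r r0) := ⟨z, hz.trans (le_max_left _ _), hz1.trans (le_max_right _ _)⟩
    have f4 := f2 _ f3
    rwa [inv_inv] at f4
  have hH : AQSC_H Γ (GW Γ G r0 2 R) r0 (R ^ (3 * (d : ℝ) / 4 + ζ)) (Gp (Γ := Γ) G χ ch ζ R) :=
    ⟨a1, fun y z h => (a2 y z h).2.2, a3, a4, a5, b1, w1, w2, hint, hfin, hact⟩
  intro Λ F T hD v hv
  obtain ⟨b, hb⟩ := hv.bdd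
  refine ⟨⟨AQSC_cont hH hv.meas hb, fun γ hγ z => AQSC_inv hH hv.meas γ (hv.inv γ hγ) z, ?_⟩, fun z => AQSC_int hH hv.meas hb z⟩
  rcases hD with ⟨-, hF, -⟩ | ⟨-, -, hT⟩
  · obtain ⟨b', hb'⟩ := hF.bdd
    exact ⟨b', fun z hz _ => hb' z hz⟩
  · obtain ⟨S, hS⟩ := hv.supp
    obtain ⟨b', hb'⟩ := AQSC_supp hH (v := v) (S := S) (fun y hy => hS y (by rw [hT]; trivial) hy)
    exact ⟨b', fun z _ hz => hb' z hz⟩

end

end Pool.Agent.VD
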