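import Pool.Agent.helper99.VD.SpecU

/-!
# Project VD (MP_07c750_an), row CLSA: the classes of undetected chains
-/

set_option autoImplicit false

open scoped ENNReal
open MeasureTheory Filter Set

namespace Pool.Agent.VD

theorem CLSA_fr0 {X S : Type} (Y : SY X S) (t : ℝ) (w : ℕ → S) (h : Y.fl 0 (w 0) = w 0) : frA Y t w 0 = w 0 := by
  unfold frA
  rw [zero_div, Nat.floor_zero, Nat.cast_zero, zero_mul, sub_zero, h]

theorem CLSA_frN {X S : Type} (Y : SY X S) (t : ℝ) (w : ℕ → S) (N : ℕ) (ht : t ≠ 0) (h : Y.fl 0 (w N) = w N) :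
    frA Y t w (N * t) = w N := by
  unfold frA
  rw [mul_div_cancel_right₀ _ ht, Nat.floor_natCast, sub_self, h]

theorem CLSA_main {Γ X S : Type} [Group Γ] [MulAction Γ X] [MulAction Γ S] (C c0 : ℝ) (Y : SY X S) (hY : OKS Γ C c0 Y)
    (ε e1 Λ t eps r : ℝ) (N : ℕ) (x y : S) (w : ℕ → S) (hC : 1 ≤ C) (hepsC : C * eps ≤ c0) (heps : 0 < eps)
    (ht : 1 ≤ t) (hN : 1 ≤ N) (hΛ0 : 0 < Λ) (he0 : 0 < e1) (hr0 : r ≤ c0)
    (Xs : Set (ℕ → S))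
    (hX : ∀ w' ∈ Xs, w' 0 = x ∧ (∃ γ : Γ, w' N = γ • y) ∧ JPA Y t r N w' ∧
      (∀ i : ℕ, (i : ℝ) * Λ < N * t → ∃ a : Γ × ℕ × Bool, SttA Y t ε e1 Λ N w w' i a))
    (hR1 : ∀ w' ∈ Xs, ∀ w'' ∈ Xs, ∀ (i : ℕ) (v : ℝ) (a : Γ × ℕ × Bool), 0 ≤ v → v ≤ Λ → i * Λ + v ≤ N * t → SttA Y t ε e1 Λ N w w' i a →
      SttA Y t ε e1 Λ N w w'' i a → Y.dS (frA Y t w' (i * Λ + v)) (frA Y t w'' (i * Λ + v)) ≤ eps)
    (hR2 : ∀ w' ∈ Xs, ∀ w'' ∈ Xs, ∀ (i : ℕ) (γ' γ'' : Γ) (n : ℕ) (b : Bool), i * Λ ≤ N * t → SttA Y t ε e1 Λ N w w' i (γ', n, b) →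
      SttA Y t ε e1 Λ N w w'' i (γ'', n, b) → Y.dS (frA Y t w' (i * Λ)) (frA Y t w'' (i * Λ)) ≤ eps → γ' = γ'') :
    ∃ cl : (ℕ → S) → ℕ, ∀ w' ∈ Xs, cl w' < (((⌊N * t / e1⌋₊ + 1) * 2) ^ ⌈N * t / Λ⌉₊) ∧
      ∀ w'' ∈ Xs, cl w'' = cl w' → w'' N = w' N ∧ ∀ s : ℝ, 0 ≤ s → s < N * t → Y.dS (frA Y t w' s) (frA Y t w'' s) ≤ eps := by
  classical
  have hNr : (1 : ℝ) ≤ N := by exact_mod_cast hN
  obtain ⟨T, hTd⟩ : ∃ T : ℝ, T = N * t := ⟨_, rfl⟩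
  have hT : 1 ≤ T := by rw [hTd]; nlinarith
  have hTΛ : 0 < T / Λ := by positivity
  obtain ⟨n0, hn0⟩ : ∃ n0 : ℕ, n0 = ⌊T / e1⌋₊ := ⟨_, rfl⟩
  obtain ⟨S', hSd⟩ : ∃ S' : ℕ, S' = ⌈T / Λ⌉₊ := ⟨_, rfl⟩
  rw [← hTd, ← hSd, ← hn0]
  have hS1 : 1 ≤ S' := by rw [hSd]; exact Nat.ceil_pos.2 hTΛ
  have hSlt : ∀ i : ℕ, i < S' → (i : ℝ) * Λ < T := by
    intro i hi
    rw [hSd, Nat.lt_ceil, lt_div_iff₀ hΛ0] at hi
    exact hi
  have hSle : T ≤ S' * Λ := by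
    rw [← div_le_iff₀ hΛ0, hSd]
    exact Nat.le_ceil _
  -- the states
  have hex : ∀ (w' : ℕ → S) (i : ℕ), ∃ a : Γ × ℕ × Bool, w' ∈ Xs → i < S' → SttA Y t ε e1 Λ N w w' i a := by
    intro w' i
    by_cases h : w' ∈ Xs ∧ i < S'
    · obtain ⟨a, ha⟩ := (hX w' h.1).2.2.2 i (by rw [← hTd]; exact hSlt i h.2)
      exact ⟨a, fun _ _ => ha⟩
    · exact ⟨(1, 0, false), fun h1 h2 => absurd ⟨h1, h2⟩ h⟩
  choose st hst using hex
  have hfl : ∀ (w' : ℕ → S) (i : ℕ), w' ∈ Xs → i < S' → (st w' i).2.1 < n0 + 1 := by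
    intro w' i h1 h2
    obtain ⟨s, hs0, hs1, hk, -⟩ := hst w' i h1 h2
    rw [hk, hn0, Nat.lt_succ_iff]
    refine Nat.floor_le_floor (div_le_div_of_nonneg_right ?_ he0.le)
    rw [hTd]
    exact hs1.le
  obtain ⟨F, hF⟩ : ∃ F : (ℕ → S) → (Fin S' → Fin (n0 + 1) × Bool), F = fun w' (i : Fin S') => (Fin.ofNat (n0 + 1) (st w' i.val).2.1, (st w' i.val).2.2) := ⟨_, rfl⟩
  have hcard : Fintype.card (Fin S' → Fin (n0 + 1) × Bool) = ((n0 + 1) * 2) ^ S' := by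
    simp [Fintype.card_prod]
  refine ⟨fun w' => ((Fintype.equivFin (Fin S' → Fin (n0 + 1) × Bool)) (F w')).val, fun w' hw' => ⟨?_, fun w'' hw'' he => ?_⟩⟩
  · have h := ((Fintype.equivFin (Fin S' → Fin (n0 + 1) × Bool)) (F w')).isLt
    exact lt_of_lt_of_eq h hcard
  · have hFe : F w'' = F w' := by
      have := Fin.ext he
      exact (Fintype.equivFin _).injective this
    have hsame : ∀ i : ℕ, i < S' → (st w'' i).2.1 = (st w' i).2.1 ∧ (st w'' i).2.2 = (st w' i).2.2 := by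
      intro i hi
      have h1 := congrFun hFe ⟨i, hi⟩
      rw [hF] at h1
      simp only [Prod.mk.injEq] at h1
      refine ⟨?_, h1.2⟩
      have h2 := congrArg Fin.val h1.1
      simp only [Fin.ofNat] at h2
      rw [Nat.mod_eq_of_lt (hfl w'' i hw'' hi), Nat.mod_eq_of_lt (hfl w' i hw' hi)] at h2
      exact h2
    obtain ⟨hx1, ⟨γ1, hγ1⟩, hj1, -⟩ := hX w' hw'
    obtain ⟨hx2, ⟨γ2, hγ2⟩, hj2, -⟩ := hX w'' hw''
    have hE0 : ∀ w3 : ℕ → S, JPA Y t r N w3 → Y.fl 0 (w3 0) = w3 0 ∧ Y.fl 0 (w3 N) = w3 N := by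
      intro w3 h3
      refine ⟨hY.fl0 _ ((h3 0 (by omega)).2.1.trans hr0), hY.fl0 _ ?_⟩
      have h4 := (h3 (N - 1) (by omega)).2.2
      rw [Nat.sub_add_cancel hN] at h4
      exact h4.trans hr0
    -- induction
    have key : ∀ i : ℕ, i < S' → Y.dS (frA Y t w' (i * Λ)) (frA Y t w'' (i * Λ)) ≤ eps → SttA Y t ε e1 Λ N w w'' i (st w' i) := by
      intro i hi hd
      obtain ⟨f1, f2⟩ := hsame i hi
      have a1 := hst w' i hw' hi
      have a2 := hst w'' i hw'' hi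
      have b1 : SttA Y t ε e1 Λ N w w' i ((st w' i).1, (st w' i).2.1, (st w' i).2.2) := a1
      have b2 : SttA Y t ε e1 Λ N w w'' i ((st w'' i).1, (st w' i).2.1, (st w' i).2.2) := by
        rw [← f1, ← f2]
        exact a2
      have h := hR2 w' hw' w'' hw'' i _ _ _ _ (by rw [← hTd]; exact (hSlt i hi).le) b1 b2 hd
      rw [← h] at b2
      exact b2
    have hind : ∀ i : ℕ, i < S' → Y.dS (frA Y t w' (i * Λ)) (frA Y t w'' (i * Λ)) ≤ eps := by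
      intro i
      induction i with
      | zero =>
        intro _
        rw [Nat.cast_zero, zero_mul, CLSA_fr0 Y t w' (hE0 w' hj1).1, CLSA_fr0 Y t w'' (hE0 w'' hj2).1, hx1, hx2, hY.dS0]
        exact heps.le
      | succ i ih =>
        intro hi
        have hi' : i < S' := by omega
        have h1 := ih hi'
        have e : ((i + 1 : ℕ) : ℝ) * Λ = i * Λ + Λ := by push_cast; ring
        rw [e]
        refine hR1 w' hw' w'' hw'' i Λ (st w' i) hΛ0.le le_rfl ?_ (hst w' i hw' hi') (key i hi' h1)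
        rw [← e, ← hTd]
        exact (hSlt (i + 1) hi).le
    have hclose : ∀ s : ℝ, 0 ≤ s → s ≤ T → Y.dS (frA Y t w' s) (frA Y t w'' s) ≤ eps := by
      intro s hs0 hs1
      obtain ⟨i, hi⟩ : ∃ i : ℕ, i = min ⌊s / Λ⌋₊ (S' - 1) := ⟨_, rfl⟩
      have hiS : i < S' := by
        have : i ≤ S' - 1 := by rw [hi]; exact min_le_right _ _
        omega
      have hi1 : (i : ℝ) * Λ ≤ s := by
        rw [← le_div_iff₀ hΛ0]
        have h1 : (i : ℝ) ≤ (⌊s / Λ⌋₊ : ℝ) := by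
          rw [hi]
          exact_mod_cast min_le_left _ _
        exact h1.trans (Nat.floor_le (by positivity))
      have hi2 : s ≤ (i + 1) * Λ := by
        rcases le_total ⌊s / Λ⌋₊ (S' - 1) with h | h
        · have h1 : i = ⌊s / Λ⌋₊ := by rw [hi]; exact min_eq_left h
          rw [← div_le_iff₀ hΛ0, h1]
          exact (Nat.lt_floor_add_one _).le
        · have h1 : i = S' - 1 := by rw [hi]; exact min_eq_right h
          have h2 : ((i : ℝ) + 1) = S' := by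
            rw [h1, Nat.cast_sub hS1, Nat.cast_one]
            ring
          rw [h2]
          exact hs1.trans hSle
      have e : (i : ℝ) * Λ + (s - i * Λ) = s := by ring
      have h := hR1 w' hw' w'' hw'' i (s - i * Λ) (st w' i) (by linarith) (by linarith) (by rw [e, ← hTd]; exact hs1)
        (hst w' i hw' hiS) (key i hiS (hind i hiS))
      rw [e] at h
      exact h
    refine ⟨?_, fun s hs0 hs1 => hclose s hs0 hs1.le⟩
    have h := hclose T (by linarith) le_rfl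
    rw [hTd, CLSA_frN Y t w' N (by linarith) (hE0 w' hj1).2, CLSA_frN Y t w'' N (by linarith) (hE0 w'' hj2).2, hγ1, hγ2] at h
    have h1 := (hY.psd _ _).trans (mul_le_mul_of_nonneg_left h (by linarith))
    rw [hY.psg, hY.psg] at h1
    have h2 : Y.dX ((γ2⁻¹ * γ1) • Y.ps y) (Y.ps y) ≤ c0 := by
      have h3 := hY.dXi γ2 ((γ2⁻¹ * γ1) • Y.ps y) (Y.ps y)
      rw [← mul_smul, mul_inv_cancel_left] at h3
      rw [← h3]
      exact h1.trans hepsC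
    have h3 := hY.inj _ _ h2
    rw [hγ1, hγ2, inv_mul_eq_one.1 h3]

theorem CLSA_proof (hPIVA : PIVA_stmt) (hRCLA : RCLA_stmt) : CLSA_stmt := by
  intro C c0 hC hc0 hc1 eps heps
  obtain ⟨CP, ρP, hCP, hρP0, hρP1, hPIV⟩ := hPIVA C c0 hC hc0 hc1
  obtain ⟨CR, hCR, hRCL⟩ := hRCLA C c0 hC hc0 hc1
  obtain ⟨ep, hep⟩ : ∃ ep : ℝ, ep = min eps (min (c0 / CR) (c0 / C)) := ⟨_, rfl⟩
  have hep0 : 0 < ep := by rw [hep]; exact lt_min heps (lt_min (by positivity) (by positivity))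
  have hep1 : ep ≤ eps := by rw [hep]; exact min_le_left _ _
  have hepR : CR * ep ≤ c0 := by
    have h : ep ≤ c0 / CR := by rw [hep]; exact (min_le_right _ _).trans (min_le_left _ _)
    rw [le_div_iff₀ (by linarith)] at h
    linarith
  have hepC : C * ep ≤ c0 := by
    have h : ep ≤ c0 / C := by rw [hep]; exact (min_le_right _ _).trans (min_le_right _ _)
    rw [le_div_iff₀ (by linarith)] at h
    linarith
  obtain ⟨e1, he10, he11, hRCL⟩ := hRCL ep hep0 hepR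
  obtain ⟨ρR, hρR0, hρR1, hρR2, hRCL⟩ := hRCL CP hCP
  have hie : 0 < 2 / e1 := by positivity
  refine ⟨CP + 2 / e1 + 2 * CR, min ρP ρR, by linarith, lt_min hρP0 hρR0, (min_le_right _ _).trans hρR1, (min_le_right _ _).trans hρR2, ?_⟩
  intro Γ X S _ _ _ Y ρ ρ1 r K t J N nc χ x y w hY hNet hN hρ hr hrρ hρ1 ht hlogt hK hnc hw
  have hρ0 : 0 < ρ1 := hr.trans_le hrρ
  have hρP' : ρ1 ≤ ρP := hρ1.trans (min_le_left _ _)
  have hρR' : ρ1 ≤ ρR := hρ1.trans (min_le_right _ _)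
  have hρ8 : ρ1 ≤ 1 / 8 := hρR'.trans hρR1
  have hrc : r ≤ c0 := hrρ.trans (hρR'.trans hρR2)
  have hlog1 : Real.log (1 / ρ1) = -Real.log ρ1 := by rw [one_div, Real.log_inv]
  have hlog0 : 0 < Real.log (1 / ρ1) := by
    rw [hlog1]
    have := Real.log_neg hρ0 (by linarith)
    linarith
  have hNr : (1 : ℝ) ≤ N := by exact_mod_cast hN
  obtain ⟨T, hTd⟩ : ∃ T : ℝ, T = N * t := ⟨_, rfl⟩
  have hT : 1 ≤ T := by rw [hTd]; nlinarith
  obtain ⟨Λ, hΛ⟩ : ∃ Λ : ℝ, Λ = Real.log (1 / ρ1) / (2 * CR) := ⟨_, rfl⟩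
  have hC0 : 0 < CR := by linarith
  have hΛ0 : 0 < Λ := by rw [hΛ]; positivity
  have hΛt : Λ ≤ t := by
    rw [hΛ, div_le_iff₀ (by linarith : (0 : ℝ) < 2 * CR)]
    nlinarith
  have hexpR : Real.exp (CR * Λ) ≤ ρ1 ^ (-(1 / 2) : ℝ) := by
    rw [Real.rpow_def_of_pos hρ0]
    refine Real.exp_le_exp.2 (le_of_eq ?_)
    rw [hΛ, one_div, Real.log_inv]
    field_simp
  have hKP : CP / ρ ≤ |K| := by
    refine le_trans ?_ hK
    exact div_le_div_of_nonneg_right (by linarith) hρ.le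
  have hcond : (nc : ℝ) + CP * (N * t + 1) / ρ1 ≤ ρ1 / (CP * ρ) := by
    have h1 : CP * (N * t + 1) / ρ1 ≤ (CP + 2 / e1 + 2 * CR) * (N * t + 1) / ρ1 := by
      refine div_le_div_of_nonneg_right (mul_le_mul_of_nonneg_right (by linarith) ?_) hρ0.le
      rw [← hTd]; linarith
    have h2 : ρ1 / ((CP + 2 / e1 + 2 * CR) * ρ) ≤ ρ1 / (CP * ρ) := by
      apply div_le_div_of_nonneg_left hρ0.le (by positivity)
      exact mul_le_mul_of_nonneg_right (by linarith) hρ.le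
    linarith
  obtain ⟨Xs, hXs⟩ : ∃ Xs : Set (ℕ → S), Xs = {w' | w' 0 = x ∧ (∃ γ : Γ, w' N = γ • y) ∧ JPA Y t r N w' ∧ UndA Y χ K t N nc w w'} := ⟨_, rfl⟩
  have hmain := CLSA_main (Γ := Γ) C c0 Y hY (CP * ρ1) e1 Λ t ep r N x y w hC hepC hep0 ht hN hΛ0 he10 hrc Xs (by
    intro w' hw'
    rw [hXs] at hw'
    obtain ⟨hw0, hwN, hwJ, hwU⟩ := hw'
    refine ⟨hw0, hwN, hwJ, ?_⟩
    intro i hi
    obtain ⟨s, γ, b, hs0, hs1, hd⟩ := hPIV Γ X S Y ρ ρ1 r K t J N nc χ w w' hY hNet hρ hρ0 hρP' ht hrρ hKP hcond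
      (fun j hj => ⟨(hw j hj).2.1, (hwJ j hj).2.1⟩) hwU (i * Λ) (by positivity) hi
    exact ⟨(γ, ⌊s / e1⌋₊, b), s, hs0, hs1, rfl, hd⟩) (by
    intro w' hw' w'' hw'' i v a hv0 hv1 hv2 ha1 ha2
    rw [hXs] at hw' hw''
    exact (hRCL Γ X S Y ρ1 t r e1 Λ N w w' w'' hY hN hr hrρ hρR' ht he10 le_rfl hΛ0 hΛt hexpR hw hw'.2.2.1 hw''.2.2.1 i).1 v a hv0 hv1 hv2 ha1 ha2) (by
    intro w' hw' w'' hw'' i γ' γ'' n b hi ha1 ha2 hd
    rw [hXs] at hw' hw''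
    exact (hRCL Γ X S Y ρ1 t r e1 Λ N w w' w'' hY hN hr hrρ hρR' ht he10 le_rfl hΛ0 hΛt hexpR hw hw'.2.2.1 hw''.2.2.1 i).2 γ' γ'' n b hi ha1 ha2 hd)
  obtain ⟨cl, hcl⟩ := hmain
  refine ⟨((⌊N * t / e1⌋₊ + 1) * 2) ^ ⌈N * t / Λ⌉₊, cl, ?_, ?_⟩
  · rw [← hTd]
    have hTΛ : 0 < T / Λ := by positivity
    obtain ⟨S', hSd⟩ : ∃ S' : ℕ, S' = ⌈T / Λ⌉₊ := ⟨_, rfl⟩
    have hSup : (S' : ℝ) < T / Λ + 1 := by
      rw [hSd]; exact Nat.ceil_lt_add_one hTΛ.le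
    rw [← hSd]
    have hQ1 : 1 ≤ (CP + 2 / e1 + 2 * CR) * (T + 1) := by nlinarith
    have h2e : (2 : ℝ) ≤ 2 / e1 := by
      rw [le_div_iff₀ he10]
      nlinarith
    have hq : (((⌊T / e1⌋₊ + 1) * 2 : ℕ) : ℝ) ≤ (CP + 2 / e1 + 2 * CR) * (T + 1) := by
      push_cast
      have h1 : (⌊T / e1⌋₊ : ℝ) ≤ T / e1 := Nat.floor_le (by positivity)
      calc ((⌊T / e1⌋₊ : ℝ) + 1) * 2 ≤ (T / e1 + 1) * 2 := mul_le_mul_of_nonneg_right (by linarith) (by positivity)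
        _ = 2 / e1 * T + 2 := by ring
        _ ≤ 2 / e1 * T + 2 / e1 := by linarith
        _ = 2 / e1 * (T + 1) := by ring
        _ ≤ (CP + 2 / e1 + 2 * CR) * (T + 1) := mul_le_mul_of_nonneg_right (by linarith) (by linarith)
    have hexpo : T / Λ ≤ (CP + 2 / e1 + 2 * CR) * T / Real.log (1 / ρ1) := by
      have e : T / Λ = (2 * CR) * T / Real.log (1 / ρ1) := by
        rw [hΛ]
        field_simp
      rw [e]
      exact div_le_div_of_nonneg_right (mul_le_mul_of_nonneg_right (by linarith) (by linarith)) hlog0.le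
    have e5 : (CP + 2 / e1 + 2 * CR) * N * t = (CP + 2 / e1 + 2 * CR) * T := by rw [hTd]; ring
    rw [e5]
    calc ((((⌊T / e1⌋₊ + 1) * 2) ^ S' : ℕ) : ℝ) = (((⌊T / e1⌋₊ + 1) * 2 : ℕ) : ℝ) ^ S' := by push_cast; ring
      _ ≤ ((CP + 2 / e1 + 2 * CR) * (T + 1)) ^ S' := pow_le_pow_left₀ (Nat.cast_nonneg _) hq S'
      _ = ((CP + 2 / e1 + 2 * CR) * (T + 1)) ^ ((S' : ℕ) : ℝ) := by rw [Real.rpow_natCast]
      _ ≤ ((CP + 2 / e1 + 2 * CR) * (T + 1)) ^ ((CP + 2 / e1 + 2 * CR) * T / Real.log (1 / ρ1) + 3) := by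
          refine Real.rpow_le_rpow_of_exponent_le hQ1 ?_
          linarith
  · intro w' hw0 hwN hwJ hwU
    have hmem : w' ∈ Xs := by
      rw [hXs]
      exact ⟨hw0, hwN, hwJ, hwU⟩
    refine ⟨(hcl w' hmem).1, ?_⟩
    intro w'' hw0' hwN' hwJ' hwU' he
    have hmem' : w'' ∈ Xs := by
      rw [hXs]
      exact ⟨hw0', hwN', hwJ', hwU'⟩
    obtain ⟨g1, g2⟩ := (hcl w' hmem).2 w'' hmem' he
    exact ⟨g1, fun s hs0 hs1 => (g2 s hs0 hs1).trans hep1⟩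

end Pool.Agent.VD
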