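import Pool.Agent.helper84.VD.SpecB5

/-!
# Project VD (MP_07c750_an), row DCN: chains of big steps are shadowed by the disc
-/

set_option autoImplicit false

open scoped ContDiff Topology InnerProductSpace ENNReal
open MeasureTheory Filter Set

namespace Pool.Agent.VD

open Pool.Agent.VQ (CH qZ)
open Pool.Agent.VDE (dir)

noncomputable section

/-- the choice of `R` -/
theorem DCN_R (b : ℕ) (M z e2 e3 : ℝ) (hM : 1 ≤ M) (hz : 0 < z) (hz1 : z ≤ 1 / 16) (he2 : 0 < e2) (he21 : e2 ≤ 1) (he3 : 0 < e3) (hb : 1 ≤ b) :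
    ∃ R0 : ℝ, 1 ≤ R0 ∧ ∀ R : ℝ, R0 ≤ R →
      R ^ (-(1 / 2) + z) ≤ 1 ∧ M * R ^ (-(1 / 2) + z) ≤ e3 ∧
      M * (((b * (⌊e2 * Real.log R⌋₊ + 1) : ℕ) : ℝ) + 1) ^ 2 * R ^ (-(1 / 2) + z) ≤ R ^ (-(1 / 2) + 16 * z) ∧
      M * (((b * (⌊e2 * Real.log R⌋₊ + 1) : ℕ) : ℝ) + 1) * R ^ (-(1 / 2) + z) ≤ R ^ (-(1 / 4) : ℝ) / 10 := by
  have hbR : (1 : ℝ) ≤ b := by exact_mod_cast hb
  have h1 : ∀ᶠ R : ℝ in atTop, 10 * M * b ^ 2 ≤ R ^ z := (tendsto_rpow_atTop hz).eventually_ge_atTop _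
  have h2 : ∀ᶠ R : ℝ in atTop, ‖Real.log R‖ ≤ (1 / 2) * ‖R ^ z‖ := (isLittleO_log_rpow_atTop hz).bound (by norm_num)
  have h3 : ∀ᶠ R : ℝ in atTop, 4 ≤ R ^ z := (tendsto_rpow_atTop hz).eventually_ge_atTop _
  have h4 : ∀ᶠ R : ℝ in atTop, R ^ (-(1 / 4) : ℝ) < e3 := (tendsto_rpow_neg_atTop (by norm_num : (0 : ℝ) < 1 / 4)).eventually_lt_const he3
  obtain ⟨R1, hR1⟩ := eventually_atTop.1 (h1.and (h2.and (h3.and h4)))
  refine ⟨max R1 1, le_max_right _ _, fun R hR => ?_⟩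
  obtain ⟨k1, k2, k3, k4⟩ := hR1 R ((le_max_left _ _).trans hR)
  have hR1' : 1 ≤ R := (le_max_right _ _).trans hR
  have hR0 : 0 < R := by linarith
  have hlog : 0 ≤ Real.log R := Real.log_nonneg hR1'
  have hzR : 0 < R ^ z := Real.rpow_pos_of_pos hR0 _
  rw [Real.norm_of_nonneg hlog, Real.norm_of_nonneg hzR.le] at k2
  obtain ⟨X, hX⟩ : ∃ X, X = R ^ z := ⟨_, rfl⟩
  rw [← hX] at k1 k2 k3 hzR
  -- the number of steps
  have hn : ((b * (⌊e2 * Real.log R⌋₊ + 1) : ℕ) : ℝ) + 1 ≤ b * X := by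
    have n1 : ((⌊e2 * Real.log R⌋₊ : ℕ) : ℝ) ≤ Real.log R := by
      refine (Nat.floor_le (mul_nonneg he2.le hlog)).trans ?_
      calc e2 * Real.log R ≤ 1 * Real.log R := mul_le_mul_of_nonneg_right he21 hlog
        _ = Real.log R := one_mul _
    push_cast
    have n2 : (b : ℝ) * (((⌊e2 * Real.log R⌋₊ : ℕ) : ℝ) + 1) ≤ b * (Real.log R + 1) := mul_le_mul_of_nonneg_left (by linarith) (by linarith)
    have n3 : (b : ℝ) * (Real.log R + 1) + 1 ≤ b * (Real.log R + 2) := by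
      have : (b : ℝ) * (Real.log R + 2) = b * (Real.log R + 1) + b := by ring
      linarith
    have n4 : (b : ℝ) * (Real.log R + 2) ≤ b * X := mul_le_mul_of_nonneg_left (by linarith) (by linarith)
    linarith
  obtain ⟨n, hn'⟩ : ∃ n, n = ((b * (⌊e2 * Real.log R⌋₊ + 1) : ℕ) : ℝ) + 1 := ⟨_, rfl⟩
  rw [← hn'] at hn ⊢
  have hn0 : 1 ≤ n := by rw [hn']; linarith [Nat.cast_nonneg (α := ℝ) (b * (⌊e2 * Real.log R⌋₊ + 1))]
  obtain ⟨Y, hY⟩ : ∃ Y, Y = R ^ (-(1 / 2) + z) := ⟨_, rfl⟩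
  have hY0 : 0 < Y := by rw [hY]; exact Real.rpow_pos_of_pos hR0 _
  rw [← hY]
  have hpow : ∀ a a' : ℝ, a ≤ a' → R ^ a ≤ R ^ a' := fun a a' h => Real.rpow_le_rpow_of_exponent_le hR1' h
  have hX2 : X * X * Y = R ^ (-(1 / 2) + 3 * z) := by
    rw [hX, hY, ← Real.rpow_add hR0, ← Real.rpow_add hR0]
    congr 1
    ring
  have hX1 : X * Y = R ^ (-(1 / 2) + 2 * z) := by
    rw [hX, hY, ← Real.rpow_add hR0]
    congr 1
    ring
  have hX3 : X * (X * X) * Y = R ^ (-(1 / 2) + 4 * z) := by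
    rw [hX, hY, ← Real.rpow_add hR0, ← Real.rpow_add hR0, ← Real.rpow_add hR0]
    congr 1
    ring
  have hMX : M ≤ X := by
    have : M * 1 ≤ M * (10 * b ^ 2) := mul_le_mul_of_nonneg_left (by nlinarith) (by linarith)
    nlinarith
  refine ⟨?_, ?_, ?_, ?_⟩
  · rw [hY]
    exact Real.rpow_le_one_of_one_le_of_nonpos hR1' (by linarith)
  · have e1 : M * Y ≤ X * Y := mul_le_mul_of_nonneg_right hMX hY0.le
    have e2' : X * Y ≤ R ^ (-(1 / 4) : ℝ) := by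
      rw [hX1]
      exact hpow _ _ (by linarith)
    linarith
  · have e1 : M * n ^ 2 ≤ X * (X * X) := by
      have e2' : n ^ 2 ≤ (b * X) ^ 2 := pow_le_pow_left₀ (by linarith) hn 2
      have e3' : M * n ^ 2 ≤ M * (b * X) ^ 2 := mul_le_mul_of_nonneg_left e2' (by linarith)
      have e4 : M * (b * X) ^ 2 = (M * b ^ 2) * (X * X) := by ring
      have e5 : M * (b : ℝ) ^ 2 ≤ X := by
        have : 0 ≤ M * (b : ℝ) ^ 2 := by positivity
        linarith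
      have e6 : (M * (b : ℝ) ^ 2) * (X * X) ≤ X * (X * X) := mul_le_mul_of_nonneg_right e5 (by positivity)
      linarith
    calc M * n ^ 2 * Y ≤ X * (X * X) * Y := mul_le_mul_of_nonneg_right e1 hY0.le
      _ = R ^ (-(1 / 2) + 4 * z) := hX3
      _ ≤ R ^ (-(1 / 2) + 16 * z) := hpow _ _ (by linarith)
  · have e1 : M * n * 10 ≤ X * X := by
      have e3' : M * n ≤ M * (b * X) := mul_le_mul_of_nonneg_left hn (by linarith)
      have e5 : 10 * M * (b : ℝ) ≤ X := by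
        have e6 : (b : ℝ) * 1 ≤ b * b := mul_le_mul_of_nonneg_left hbR (by linarith)
        have e7 : 10 * M * (b : ℝ) ≤ 10 * M * (b * b) := mul_le_mul_of_nonneg_left (by linarith) (by linarith)
        have e8 : 10 * M * ((b : ℝ) * b) = 10 * M * b ^ 2 := by ring
        linarith
      have e9 : (10 * M * (b : ℝ)) * X ≤ X * X := mul_le_mul_of_nonneg_right e5 hzR.le
      have e10 : M * (b * X) * 10 = (10 * M * (b : ℝ)) * X := by ring
      linarith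
    have e2' : M * n * 10 * Y ≤ X * X * Y := mul_le_mul_of_nonneg_right e1 hY0.le
    have e3' : X * X * Y ≤ R ^ (-(1 / 4) : ℝ) := by
      rw [hX2]
      exact hpow _ _ (by linarith)
    have e4 : M * n * 10 * Y = (M * n * Y) * 10 := by ring
    linarith

theorem DCN_proof (hSHC : SHC_stmt) (hSEM : SEM_stmt) (hEFX : EFX_stmt) (hCHB : CHB_stmt) (hSTU : STU_stmt) (hDPP : DPP_stmt) (hGLF : GLF_stmt) (hGHL : GHL_stmt) (hGEQ : GEQ_stmt) (hGXH : GXH_stmt) : DCN_stmt := by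
  intro m Γ _ _ K r0 η k B c C' e0 e1 hK hr0 hη hc hC' he0 he1
  obtain ⟨C0, hC0, hE⟩ := hEFX (m + 1) Γ K k B η hK hη
  obtain ⟨C2, hC2⟩ : ∃ C2, C2 = max C' C0 := ⟨_, rfl⟩
  have hC2' : C' ≤ C2 := by rw [hC2]; exact le_max_left _ _
  have hC20 : C0 ≤ C2 := by rw [hC2]; exact le_max_right _ _
  have hC21 : 1 ≤ C2 := hC0.trans hC20
  obtain ⟨e2, he2⟩ : ∃ e2, e2 = min e0 (e1 / (4 * C2)) := ⟨_, rfl⟩
  have he2p : 0 < e2 := by
    rw [he2]
    exact lt_min he0 (by positivity)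
  have he20 : e2 ≤ e0 := by rw [he2]; exact min_le_left _ _
  have he21 : 4 * C2 * e2 ≤ e1 := by
    have h : e2 ≤ e1 / (4 * C2) := by rw [he2]; exact min_le_right _ _
    rw [le_div_iff₀ (by positivity)] at h
    linarith
  obtain ⟨e3, K', he3, hK', hS⟩ := hSHC m c C2 e2 e1 hc hC21 he2p he21
  obtain ⟨CS, RS, hCS, hRS, hST⟩ := hSTU (m + 1) Γ K r0 η k B hK hr0 hη
  refine ⟨16, by norm_num, fun A b hA hb => ?_⟩
  have hz0 : 0 < A.z2 := by
    have h1 := hA.z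
    have h2 := hA.z1
    have h3 := hA.z2
    linarith
  have hz1 : A.z2 ≤ 1 / 16 := by
    have h1 := hA.up
    linarith
  have hA2 : A.e2 ≤ 1 := by
    have h1 := hA.e2'
    linarith
  obtain ⟨R1, hR1, hRR⟩ := DCN_R b (K' * CS) A.z2 A.e2 e3 (one_le_mul_of_one_le_of_one_le hK' hCS) hz0 hz1 hA.e2 hA2 he3 hb
  refine ⟨max RS R1, hRS.trans (le_max_left _ _), fun R G Φ κ hR hG hΦ hSEC w hw0 hch => ?_⟩
  obtain ⟨q1, q2, q3, q4⟩ := hRR R ((le_max_right _ _).trans hR)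
  have hRS' : RS ≤ R := (le_max_left _ _).trans hR
  have hRpos : 0 < R := by linarith
  obtain ⟨-, hD0, -, -, -, hDi, -⟩ := hDPP (m + 1) Γ K η hK hη
  obtain ⟨l1, lm, -, -, -, -, -, -⟩ := hGLF (m + 1) Γ hK.smooth
  have hnl := (hGHL (m + 1) Γ G hG.met hK.smooth hG.isom).1
  have heq := hGEQ (m + 1) Γ G Φ hG.met hK.smooth hG.isom hΦ
  obtain ⟨-, -, -, hnH, -⟩ := hGXH (m + 1) G hG.met
  have hSEC2 := hSEM m c C' C2 e0 e2 e1 (Shl G) (dP Γ η) Φ κ hD0 hSEC hC2' he2p he20 he21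
  have hEFL := hE C2 hC20 G Φ hG hΦ
  obtain ⟨x, hx, hx1⟩ := hCHB (m + 1) Γ G Φ r0 A R b w hch
  obtain ⟨n, hn⟩ : ∃ n, n = b * (A.n R + 1) := ⟨_, rfl⟩
  rw [← hn] at hx1
  have hn1 : 1 ≤ n := by
    rw [hn]
    exact Nat.mul_pos hb (Nat.succ_pos _)
  -- the vertices
  have hr : A.r R ≤ 1 := q1
  have hstep : ∀ i < n, dP Γ η (Φ 1 (prY (x i))) (prY (x (i + 1))) ≤ CS * A.r R := fun i hi =>
    (hST (A.r R) R G Φ hRS' hr hG hΦ (x i) (x (i + 1)) (hx1 i hi)).1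
  have hvert : ∀ i ≤ n, (3 / 4 ≤ nrm G (prY (x i)) ∧ nrm G (prY (x i)) ≤ 5 / 4) ∧ x i ∈ GW Γ G r0 2 R := by
    intro i hi
    rcases Nat.lt_or_ge i n with h | h
    · have h1 := hST (A.r R) R G Φ hRS' hr hG hΦ (x i) (x (i + 1)) (hx1 i h)
      exact ⟨⟨h1.2.2.2.1, h1.2.2.2.2.1⟩, (hx1 i h).1⟩
    · obtain ⟨j, rfl⟩ : ∃ j, i = j + 1 := ⟨i - 1, by omega⟩
      have hj : j < n := by omega
      have h1 := hST (A.r R) R G Φ hRS' hr hG hΦ (x j) (x (j + 1)) (hx1 j hj)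
      exact ⟨h1.2.2.2.2.2, (hx1 j hj).2.1⟩
  obtain ⟨u, hu⟩ : ∃ u : ℕ → P (m + 1), u = fun i => lft (w 0).1⁻¹ (prY (x i)) := ⟨_, rfl⟩
  have hui : ∀ i, u i = lft (w 0).1⁻¹ (prY (x i)) := fun i => by rw [hu]
  have hnu : ∀ i, nrm G (u i) = nrm G (prY (x i)) := fun i => by
    rw [hui]
    exact (hnl _ _).2.1
  have huj : ∀ j ≤ b, u (j * (A.n R + 1)) = lft ((w 0).1⁻¹ * (w j).1) (w j).2 := by
    intro j hj
    rw [hui, hx j hj]
    exact (lm _ _ _).symm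
  have hu0 : u 0 = (w 0).2 := by
    have h1 := huj 0 (Nat.zero_le _)
    rw [Nat.zero_mul, inv_mul_cancel, l1] at h1
    exact h1
  have hCr0 : 0 ≤ CS * A.r R := mul_nonneg (by linarith) (Real.rpow_nonneg hRpos.le _)
  have hCre : CS * A.r R ≤ e3 := by
    refine le_trans ?_ q2
    show CS * A.r R ≤ K' * CS * A.r R
    have : 1 * (CS * A.r R) ≤ K' * (CS * A.r R) := mul_le_mul_of_nonneg_right hK' hCr0
    rw [mul_assoc]
    linarith
  obtain ⟨v, hv, hvi⟩ := hS G Φ (dP Γ η) κ hEFL hSEC2 n (CS * A.r R) u hCr0 hCre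
    (fun i hi => by rw [hnu]; exact (hvert i hi).1) (fun i hi => by
      rw [hui, hui, heq, hDi]
      exact hstep i hi)
  rw [hu0] at hvi
  have hnR : (n : ℝ) = b * (A.n R + 1) := by rw [hn]; push_cast; ring
  have hnN : ((b * (⌊A.e2 * Real.log R⌋₊ + 1) : ℕ) : ℝ) = n := by rw [hn]; rfl
  rw [hnN] at q3 q4
  have q3' : K' * ((n : ℝ) + 1) ^ 2 * (CS * A.r R) ≤ R ^ (-(1 / 2) + 16 * A.z2) := by
    have h1 : K' * ((n : ℝ) + 1) ^ 2 * (CS * A.r R) = K' * CS * ((n : ℝ) + 1) ^ 2 * R ^ (-(1 / 2) + A.z2) := by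
      show K' * ((n : ℝ) + 1) ^ 2 * (CS * R ^ (-(1 / 2) + A.z2)) = _
      ring
    rw [h1]
    exact q3
  have q4' : K' * ((n : ℝ) + 1) * (CS * A.r R) ≤ R ^ (-(1 / 4) : ℝ) / 10 := by
    have h1 : K' * ((n : ℝ) + 1) * (CS * A.r R) = K' * CS * ((n : ℝ) + 1) * R ^ (-(1 / 2) + A.z2) := by
      show K' * ((n : ℝ) + 1) * (CS * R ^ (-(1 / 2) + A.z2)) = _
      ring
    rw [h1]
    exact q4
  refine ⟨v, ?_, fun j hj => ?_⟩
  · refine hv.trans (le_trans ?_ q3')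
    have h1 : (1 : ℝ) ≤ ((n : ℝ) + 1) ^ 2 := one_le_pow₀ (by linarith [Nat.cast_nonneg (α := ℝ) n])
    have h2 : K' * 1 ≤ K' * ((n : ℝ) + 1) ^ 2 := mul_le_mul_of_nonneg_left h1 (by linarith)
    rw [mul_one] at h2
    exact mul_le_mul_of_nonneg_right h2 hCr0
  · have hjn : j * (A.n R + 1) ≤ n := by
      rw [hn]
      exact Nat.mul_le_mul_right _ hj
    obtain ⟨p1, p2⟩ := hvi (j * (A.n R + 1)) hjn
    have hcast : ((j * (A.n R + 1) : ℕ) : ℝ) = j * A.tu R := by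
      push_cast
      rfl
    rw [hcast, huj j hj] at p1
    refine ⟨?_, ?_⟩
    · have hxj := (hvert _ hjn).2
      rw [hx j hj] at hxj
      refine ⟨hxj.1, ?_⟩
      have s1 : nrm G (u (j * (A.n R + 1))) = nrm G (w j).2 := by
        rw [huj j hj]
        exact (hnl _ _).2.1
      have s2 := (hvert _ hjn).1
      rw [← hnu, s1] at s2
      have s3 := (hvert 0 (Nat.zero_le _)).1
      rw [← hnu, hu0] at s3
      rw [s1] at p2
      have s4 := p2.trans q4'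
      have s5 : Ep G (w j).2 = (nrm G (w j).2 ^ 2 - 1) / 2 := by
        show Ham G (w j).2 - 1 / 2 = _
        rw [hnH]
        ring
      have s6 : Ep G (w 0).2 = (nrm G (w 0).2 ^ 2 - 1) / 2 := by
        show Ham G (w 0).2 - 1 / 2 = _
        rw [hnH]
        ring
      have s7 : |Ep G (w 0).2| ≤ 5 / 4 * R ^ (-(1 / 4) : ℝ) := hw0.2
      have s8 : Ep G (w j).2 = Ep G (w 0).2 + (nrm G (w j).2 - nrm G (w 0).2) * ((nrm G (w j).2 + nrm G (w 0).2) / 2) := by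
        rw [s5, s6]
        ring
      have s9 : |(nrm G (w j).2 - nrm G (w 0).2) * ((nrm G (w j).2 + nrm G (w 0).2) / 2)| ≤ R ^ (-(1 / 4) : ℝ) / 10 * (5 / 4) := by
        rw [abs_mul]
        refine mul_le_mul s4 ?_ (abs_nonneg _) (by positivity)
        rw [abs_of_nonneg (by linarith)]
        linarith
      have s10 : 0 ≤ R ^ (-(1 / 4) : ℝ) := Real.rpow_nonneg hRpos.le _
      rw [s8]
      refine (abs_add_le _ _).trans ?_
      linarith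
    · have t1 : sc (1 / nrm G (w 0).2) (w 0).2 = dir G (w 0).2 := by
        unfold sc dir
        rw [one_div]
      rw [t1] at p1
      exact p1.trans q3'

end

end Pool.Agent.VD
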