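import Pool.Agent.helper80.VD.SpecF

/-!
# Project VD (MP_07c750_an), row FSM: the flow of a smooth compactly supported field is smooth
-/

set_option autoImplicit false

open scoped ContDiff Topology InnerProductSpace
open MeasureTheory Filter Set

namespace Pool.Agent.VD

noncomputable section

theorem FSM_two : (2 : WithTop ℕ∞) ≤ ∞ := by
  have h : ((2 : ℕ∞) : WithTop ℕ∞) ≤ ((⊤ : ℕ∞) : WithTop ℕ∞) := WithTop.coe_le_coe.2 le_top
  exact h

/-- uniqueness -/
theorem FSM_uniq {F : Type} [NormedAddCommGroup F] [NormedSpace ℝ F] (f : F → F) (hf : ContDiff ℝ ∞ f)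
    (hc : HasCompactSupport f) (T : ℝ) (hT : 0 < T) (c1 c2 : ℝ → F) (h1 : ∀ s : ℝ, |s| < T → HasDerivAt c1 (f (c1 s)) s)
    (h2 : ∀ s : ℝ, |s| < T → HasDerivAt c2 (f (c2 s)) s) (h0 : c1 0 = c2 0) : ∀ s : ℝ, |s| < T → c1 s = c2 s := by
  obtain ⟨K, hK⟩ := ContDiff.lipschitzWith_of_hasCompactSupport (𝕂 := ℝ) hc hf (by simp)
  have h := ODE_solution_unique_of_mem_Ioo (v := fun _ => f) (s := fun _ => univ) (K := K) (a := -T) (b := T) (t₀ := 0) (f := c1) (g := c2)
    (fun t _ => hK.lipschitzOnWith) ⟨by linarith, hT⟩ (fun t ht => ⟨h1 t (abs_lt.2 ht), mem_univ _⟩)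
    (fun t ht => ⟨h2 t (abs_lt.2 ht), mem_univ _⟩) h0
  intro s hs
  exact h (abs_lt.1 hs)

/-- the extended field -/
def FSM_f {F : Type} [NormedAddCommGroup F] [NormedSpace ℝ F] [FiniteDimensional ℝ F] (f : F → F) (χ : (F →L[ℝ] F) → ℝ) (p : F × (F →L[ℝ] F)) :
    F × (F →L[ℝ] F) := χ p.2 • (f p.1, (fderiv ℝ f p.1).comp p.2)

theorem FSM_f_smooth {F : Type} [NormedAddCommGroup F] [NormedSpace ℝ F] [FiniteDimensional ℝ F] (f : F → F) (χ : (F →L[ℝ] F) → ℝ)
    (hf : ContDiff ℝ ∞ f) (hχ : ContDiff ℝ ∞ χ) : ContDiff ℝ ∞ (FSM_f f χ) := by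
  unfold FSM_f
  have h1 : ContDiff ℝ ∞ (fderiv ℝ f) := (contDiff_infty_iff_fderiv.1 hf).2
  exact (hχ.comp contDiff_snd).smul ((hf.comp contDiff_fst).prodMk ((h1.comp contDiff_fst).clm_comp contDiff_snd))

theorem FSM_f_supp {F : Type} [NormedAddCommGroup F] [NormedSpace ℝ F] [FiniteDimensional ℝ F] (f : F → F) (χ : (F →L[ℝ] F) → ℝ)
    (hf : HasCompactSupport f) (hχ : HasCompactSupport χ) : HasCompactSupport (FSM_f f χ) := by
  refine HasCompactSupport.of_support_subset_isCompact (K := tsupport f ×ˢ tsupport χ) (IsCompact.prod hf hχ) ?_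
  intro p hp
  rw [Function.mem_support] at hp
  have h1 : χ p.2 ≠ 0 := by
    intro h
    apply hp
    unfold FSM_f
    rw [h, zero_smul]
  refine ⟨?_, subset_tsupport _ h1⟩
  by_contra h2
  have h3 : f p.1 = 0 := image_eq_zero_of_notMem_tsupport h2
  have h4 : fderiv ℝ f p.1 = 0 := by
    by_contra h5
    exact h2 (support_fderiv_subset ℝ h5)
  apply hp
  unfold FSM_f
  rw [h3, h4, ContinuousLinearMap.zero_comp]
  simp

theorem FSM_claim (hCFL : CRO.CFL_stmt) (n : ℕ) : ∀ (F : Type) [NormedAddCommGroup F] [NormedSpace ℝ F] [FiniteDimensional ℝ F] (f : F → F)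
    (Φ : ℝ → F → F), ContDiff ℝ ∞ f → HasCompactSupport f → CRO.IsC1Flow f Φ → ∀ t, ContDiff ℝ n (Φ t) := by
  induction n with
  | zero =>
    intro F _ _ _ f Φ hf hc hΦ t
    rw [Nat.cast_zero, contDiff_zero]
    exact continuous_iff_continuousAt.2 fun x => (hΦ.diff t x).continuousAt
  | succ n ih =>
    intro F _ _ _ f Φ hf hc hΦ t
    rw [Nat.cast_succ, contDiff_succ_iff_fderiv]
    refine ⟨fun x => hΦ.diff t x, fun h => by simp at h, ?_⟩
    rw [contDiff_iff_contDiffAt]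
    intro x0
    -- bound of the derivative
    obtain ⟨T, hT⟩ : ∃ T : ℝ, T = |t| + 1 := ⟨_, rfl⟩
    have hT0 : 0 < T := by rw [hT]; positivity
    have hcpt : IsCompact (Icc (-T) T ×ˢ Metric.closedBall x0 1) := isCompact_Icc.prod (isCompact_closedBall x0 1)
    obtain ⟨R, hR⟩ := hcpt.exists_bound_of_continuousOn (f := fun q : ℝ × F => fderiv ℝ (Φ q.1) q.2) hΦ.dcont.continuousOn
    obtain ⟨R', hR'⟩ : ∃ R' : ℝ, R' = |R| + 1 := ⟨_, rfl⟩
    have hR'0 : 0 < R' := by rw [hR']; positivity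
    obtain ⟨χ, hχ⟩ : ∃ χ : ContDiffBump (0 : F →L[ℝ] F), χ.rIn = R' := ⟨⟨R', R' + 1, hR'0, by linarith⟩, rfl⟩
    have hf' := FSM_f_smooth f χ hf χ.contDiff
    have hc' := FSM_f_supp f χ hc χ.hasCompactSupport
    obtain ⟨Ψ, hΨ⟩ := hCFL (F × (F →L[ℝ] F)) (FSM_f f χ) (hf'.of_le FSM_two) hc'
    have hsm := ih (F × (F →L[ℝ] F)) (FSM_f f χ) Ψ hf' hc' hΨ t
    have heq : ∀ x ∈ Metric.closedBall x0 1, fderiv ℝ (Φ t) x = (Ψ t (x, ContinuousLinearMap.id ℝ F)).2 := by
      intro x hx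
      have hu := FSM_uniq (FSM_f f χ) hf' hc' T hT0 (fun s => (Φ s x, fderiv ℝ (Φ s) x)) (fun s => Ψ s (x, ContinuousLinearMap.id ℝ F))
        (by
          intro s hs
          have h1 := (hΦ.ode x s).prodMk (hΦ.var x s)
          have h2 : χ (fderiv ℝ (Φ s) x) = 1 := by
            refine χ.one_of_mem_closedBall ?_
            rw [hχ, mem_closedBall_zero_iff, hR']
            have h3 := hR (s, x) ⟨⟨by linarith [(abs_lt.1 hs).1], (abs_lt.1 hs).2.le⟩, hx⟩
            have h4 := le_abs_self R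
            linarith
          have h5 : FSM_f f χ (Φ s x, fderiv ℝ (Φ s) x) = (f (Φ s x), (fderiv ℝ f (Φ s x)).comp (fderiv ℝ (Φ s) x)) := by
            unfold FSM_f
            rw [h2, one_smul]
          rw [h5]
          exact h1)
        (fun s _ => hΨ.ode _ s)
        (by
          have e1 : Φ 0 = fun x => x := funext fun x => hΦ.zero x
          show (Φ 0 x, fderiv ℝ (Φ 0) x) = Ψ 0 (x, ContinuousLinearMap.id ℝ F)
          rw [hΨ.zero, e1, fderiv_fun_id])
        t (by rw [hT]; linarith)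
      exact congrArg Prod.snd hu
    have h6 : ContDiffAt ℝ n (fun x : F => (Ψ t (x, ContinuousLinearMap.id ℝ F)).2) x0 :=
      (contDiff_snd.comp (hsm.comp (contDiff_id.prodMk contDiff_const))).contDiffAt
    refine h6.congr_of_eventuallyEq ?_
    filter_upwards [Metric.closedBall_mem_nhds x0 one_pos] with x hx
    exact heq x hx

theorem FSM_proof (hCFL : CRO.CFL_stmt) : FSM_stmt := by
  intro F _ _ _ f hf hc
  obtain ⟨Φ, hΦ⟩ := hCFL F f (hf.of_le FSM_two) hc
  refine ⟨Φ, hΦ, ?_⟩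
  rw [contDiff_iff_contDiffAt]
  rintro ⟨t0, x0⟩
  obtain ⟨T, hT⟩ : ∃ T : ℝ, T = |t0| + 1 := ⟨_, rfl⟩
  have hT0 : 0 < T := by rw [hT]; positivity
  obtain ⟨χ, hχ⟩ : ∃ χ : ContDiffBump (0 : ℝ), χ.rIn = T := ⟨⟨T, T + 1, hT0, by linarith⟩, rfl⟩
  obtain ⟨g, hg⟩ : ∃ g : F × ℝ → F × ℝ, g = fun p => ((χ p.2 * p.2) • f p.1, 0) := ⟨_, rfl⟩
  have hg1 : ContDiff ℝ ∞ g := by
    rw [hg]
    exact (((χ.contDiff.comp contDiff_snd).mul contDiff_snd).smul (hf.comp contDiff_fst)).prodMk contDiff_const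
  have hg2 : HasCompactSupport g := by
    refine HasCompactSupport.of_support_subset_isCompact (K := tsupport f ×ˢ tsupport χ) (IsCompact.prod hc χ.hasCompactSupport) ?_
    intro p hp
    rw [Function.mem_support] at hp
    refine ⟨?_, ?_⟩
    · by_contra h2
      have h3 : f p.1 = 0 := image_eq_zero_of_notMem_tsupport h2
      apply hp
      rw [hg]
      simp only [h3, smul_zero]
      rfl
    · by_contra h2
      have h3 : χ p.2 = 0 := image_eq_zero_of_notMem_tsupport h2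
      apply hp
      rw [hg]
      simp only [h3, zero_mul, zero_smul]
      rfl
  obtain ⟨Ψ, hΨ⟩ := hCFL (F × ℝ) g (hg1.of_le FSM_two) hg2
  have hsm : ContDiff ℝ ∞ (Ψ 1) := contDiff_infty.2 fun n => FSM_claim hCFL n (F × ℝ) g Ψ hg1 hg2 hΨ 1
  have heq : ∀ s : ℝ, |s| < T → ∀ x, Φ s x = (Ψ 1 (x, s)).1 := by
    intro s hs x
    have hu := FSM_uniq g hg1 hg2 2 (by norm_num) (fun r => (Φ (r * s) x, s)) (fun r => Ψ r (x, s))
      (by
        intro r _
        have h1 : HasDerivAt (fun r : ℝ => r * s) s r := by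
          simpa using (hasDerivAt_id r).mul_const s
        have h2 : HasDerivAt (fun r : ℝ => Φ (r * s) x) (s • f (Φ (r * s) x)) r :=
          HasDerivAt.scomp (h := fun r : ℝ => r * s) r (hΦ.ode x (r * s)) h1
        have h3 : χ s = 1 := by
          refine χ.one_of_mem_closedBall ?_
          rw [hχ, mem_closedBall_zero_iff, Real.norm_eq_abs]
          exact hs.le
        have h4 : g (Φ (r * s) x, s) = (s • f (Φ (r * s) x), 0) := by
          rw [hg]
          simp only [h3, one_mul]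
        rw [h4]
        exact h2.prodMk (hasDerivAt_const r s))
      (fun r _ => hΨ.ode _ r)
      (by
        show (Φ (0 * s) x, s) = Ψ 0 (x, s)
        rw [hΨ.zero, zero_mul, hΦ.zero])
      1 (by norm_num)
    have h5 := congrArg Prod.fst hu
    simp only [one_mul] at h5
    exact h5
  have h6 : ContDiffAt ℝ ∞ (fun q : ℝ × F => (Ψ 1 (q.2, q.1)).1) (t0, x0) :=
    (contDiff_fst.comp (hsm.comp (contDiff_snd.prodMk contDiff_fst))).contDiffAt
  refine h6.congr_of_eventuallyEq ?_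
  have h7 : {q : ℝ × F | |q.1| < T} ∈ 𝓝 (t0, x0) := by
    have h8 : IsOpen {q : ℝ × F | |q.1| < T} := isOpen_lt (continuous_abs.comp continuous_fst) continuous_const
    refine h8.mem_nhds ?_
    show |t0| < T
    rw [hT]; linarith
  filter_upwards [h7] with q hq
  exact heq q.1 hq q.2

end

end Pool.Agent.VD
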