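import Pool.Agent.helper80.VD.SpecG

/-!
# Project VD (MP_07c750_an), row GRI: algebra of the curvature
-/

set_option autoImplicit false

open scoped ContDiff Topology InnerProductSpace
open MeasureTheory Filter Set

namespace Pool.Agent.VD

noncomputable section

theorem GRI_fd {d : ℕ} (G : V d → V d →L[ℝ] V d) (hsm : ContDiff ℝ ∞ (fun q : V d × V d × V d => Chr G q.1 q.2.1 q.2.2)) (x v w u : V d) :
    DifferentiableAt ℝ (fun y => Chr G y v w) x ∧
      fderiv ℝ (fun y => Chr G y v w) x u = fderiv ℝ (fun q : V d × V d × V d => Chr G q.1 q.2.1 q.2.2) (x, v, w) (u, 0, 0) := by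
  have h1 : HasFDerivAt (fun q : V d × V d × V d => Chr G q.1 q.2.1 q.2.2)
      (fderiv ℝ (fun q : V d × V d × V d => Chr G q.1 q.2.1 q.2.2) (x, v, w)) (x, v, w) :=
    (hsm.differentiable (by simp) _).hasFDerivAt
  have h2 : HasFDerivAt (fun y : V d => ((y, v, w) : V d × V d × V d)) ((ContinuousLinearMap.id ℝ (V d)).prod ((0 : V d →L[ℝ] V d).prod (0 : V d →L[ℝ] V d))) x :=
    (hasFDerivAt_id x).prodMk ((hasFDerivAt_const v x).prodMk (hasFDerivAt_const w x))
  have h3 := HasFDerivAt.comp (g := fun q : V d × V d × V d => Chr G q.1 q.2.1 q.2.2) (f := fun y : V d => ((y, v, w) : V d × V d × V d)) x h1 h2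
  refine ⟨h3.differentiableAt, ?_⟩
  have h4 := congrArg (fun L : V d →L[ℝ] V d => L u) h3.fderiv
  exact h4

theorem GRI_proof (hGIN : GIN_stmt) (hGXH : GXH_stmt) (hGCH : GCH_stmt) (hGVL : GVL_stmt) (hGJC : GJC_stmt) (hHES : CRO.HES_stmt) :
    GRI_stmt := by
  intro d G hG
  obtain ⟨hsym, hlin, hsm, -, -, hT, -, -⟩ := hGCH d G hG
  have hlin2 : ∀ (x u v v' : V d) (a : ℝ), Chr G x u (v + a • v') = Chr G x u v + a • Chr G x u v' := by
    intro x u v v' a
    rw [hsym, hlin, hsym x v u, hsym x v' u]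
  have hfd := GRI_fd G hsm
  -- linearity
  have p1 : ∀ (x u u' v w : V d) (a : ℝ), Riem G x (u + a • u') v w = Riem G x u v w + a • Riem G x u' v w := by
    intro x u u' v w a
    have e1 : (fun y => Chr G y (u + a • u') w) = fun y => Chr G y u w + a • Chr G y u' w := funext fun y => hlin y u u' w a
    have e2 : fderiv ℝ (fun y => Chr G y (u + a • u') w) x = fderiv ℝ (fun y => Chr G y u w) x + a • fderiv ℝ (fun y => Chr G y u' w) x := by
      rw [e1]
      exact ((hfd x u w 0).1.hasFDerivAt.add ((hfd x u' w 0).1.hasFDerivAt.const_smul a)).fderiv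
    unfold Riem
    rw [e2, hlin, hlin, hlin2]
    simp only [map_add, map_smul, _root_.add_apply, _root_.smul_apply, smul_sub, smul_add]
    abel
  have panti : ∀ x u v w : V d, Riem G x u v w = -Riem G x v u w := by
    intro x u v w
    unfold Riem
    abel
  have p2 : ∀ (x u v v' w : V d) (a : ℝ), Riem G x u (v + a • v') w = Riem G x u v w + a • Riem G x u v' w := by
    intro x u v v' w a
    rw [panti, p1, panti x v u w, panti x v' u w]
    simp only [smul_neg, neg_add, neg_neg]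
  have p3 : ∀ (x u v w w' : V d) (a : ℝ), Riem G x u v (w + a • w') = Riem G x u v w + a • Riem G x u v w' := by
    intro x u v w w' a
    have e2 : ∀ u : V d, fderiv ℝ (fun y => Chr G y u (w + a • w')) x = fderiv ℝ (fun y => Chr G y u w) x + a • fderiv ℝ (fun y => Chr G y u w') x := by
      intro u
      have e1 : (fun y => Chr G y u (w + a • w')) = fun y => Chr G y u w + a • Chr G y u w' := funext fun y => hlin2 y u w w' a
      rw [e1]
      exact ((hfd x u w 0).1.hasFDerivAt.add ((hfd x u w' 0).1.hasFDerivAt.const_smul a)).fderiv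
    unfold Riem
    rw [e2, e2, hlin2, hlin2, hlin2, hlin2]
    simp only [_root_.add_apply, _root_.smul_apply, smul_sub, smul_add]
    abel
  have p4 : ∀ x v w : V d, Riem G x v v w = 0 := by
    intro x v w
    unfold Riem
    abel
  -- the symmetry
  obtain ⟨gin1, -, -, -, -⟩ := hGIN d G hG
  obtain ⟨gH, -, gX, -, -, -, -⟩ := hGXH d G hG
  obtain ⟨-, -, -, -, -, gom⟩ := hGVL d G hG
  have hT0 : ∀ x u : V d, ChT G x u 0 = 0 := by
    intro x u
    unfold ChT
    simp
  have p5 : ∀ x u v w : V d, ⟪G x (Riem G x u v v), w⟫_ℝ = ⟪G x (Riem G x w v v), u⟫_ℝ := by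
    intro x u v w
    obtain ⟨p, hp⟩ : ∃ p : P d, p = (x, G x v) := ⟨_, rfl⟩
    have hpx : p.1 = x := by rw [hp]
    have hpv : vel G p = v := by
      rw [hp]
      exact (gin1 x v).1
    obtain ⟨qq, hqq⟩ : ∃ qq : V d → P d, qq = fun a => (a, ChT G x a (G x v)) := ⟨_, rfl⟩
    have hqq1 : ∀ a, (qq a).1 = a := fun a => by rw [hqq]
    have hqW : ∀ a, Wc G p (qq a) = 0 := by
      intro a
      rw [hqq, hp]
      unfold Wc
      exact sub_self _
    obtain ⟨c, hc⟩ : ∃ c : ℝ → P d, c = fun s => p + s • XH G p := ⟨_, rfl⟩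
    obtain ⟨qc, hqc⟩ : ∃ qc : V d → ℝ → P d, qc = fun a s => qq a + s • fderiv ℝ (XH G) p (qq a) := ⟨_, rfl⟩
    have hc0 : c 0 = p := by rw [hc]; simp
    have hqc0 : ∀ a, qc a 0 = qq a := fun a => by rw [hqc]; simp
    have hline : ∀ a b : P d, HasDerivAt (fun s : ℝ => a + s • b) b 0 := by
      intro a b
      have h := ((hasDerivAt_id (0 : ℝ)).smul_const b).const_add a
      simpa using h
    have hJP : ∀ a, JP G c (qc a) 0 := by
      intro a
      refine ⟨?_, ?_⟩
      · rw [hc0, hc]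
        exact hline p (XH G p)
      · rw [hc0, hqc0, hqc]
        exact hline (qq a) (fderiv ℝ (XH G) p (qq a))
    have hW : ∀ a, HasDerivAt (fun s => Wc G (c s) (qc a s)) (-G x (Riem G x a v v)) 0 := by
      intro a
      have h := (hGJC d G hG c (qc a) 0 (hJP a)).2
      rw [hc0, hqc0, hqW, hpx, hpv, hqq1, hT0, zero_sub] at h
      exact h
    have hU : ∀ a, HasDerivAt (fun s => (qc a s).1) (fderiv ℝ (XH G) p (qq a)).1 0 := by
      intro a
      have h := (hJP a).2
      rw [hc0, hqc0] at h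
      exact (hasFDerivAt_fst.comp_hasDerivAt (0 : ℝ) h)
    have hV : ∀ a, HasDerivAt (fun s => (qc a s).2) (fderiv ℝ (XH G) p (qq a)).2 0 := by
      intro a
      have h := (hJP a).2
      rw [hc0, hqc0] at h
      exact (hasFDerivAt_snd.comp_hasDerivAt (0 : ℝ) h)
    -- the two derivatives of omg
    have hd1 : HasDerivAt (fun s => omg (qc u s) (qc w s)) (-⟪G x (Riem G x u v v), w⟫_ℝ + ⟪G x (Riem G x w v v), u⟫_ℝ) 0 := by
      have h1 := ((hW u).inner ℝ (hU w)).sub ((hW w).inner ℝ (hU u))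
      have e1 : (fun s => omg (qc u s) (qc w s)) = fun s => ⟪Wc G (c s) (qc u s), (qc w s).1⟫_ℝ - ⟪Wc G (c s) (qc w s), (qc u s).1⟫_ℝ :=
        funext fun s => gom (c s) (qc u s) (qc w s)
      rw [hc0, hqc0, hqc0, hqW, hqW, hqq1, hqq1] at h1
      simp only [inner_zero_left, zero_add, inner_neg_left, sub_neg_eq_add] at h1
      rw [e1]
      exact h1
    have hd2 : HasDerivAt (fun s => omg (qc u s) (qc w s)) 0 0 := by
      have h1 := ((hV u).inner ℝ (hU w)).sub ((hV w).inner ℝ (hU u))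
      have h2 := hHES d (Ham G) gH p (qq u) (qq w)
      have e2 : ⟪(qc u 0).2, (fderiv ℝ (XH G) p (qq w)).1⟫_ℝ + ⟪(fderiv ℝ (XH G) p (qq u)).2, (qc w 0).1⟫_ℝ -
          (⟪(qc w 0).2, (fderiv ℝ (XH G) p (qq u)).1⟫_ℝ + ⟪(fderiv ℝ (XH G) p (qq w)).2, (qc u 0).1⟫_ℝ) = 0 := by
        rw [hqc0, hqc0]
        rw [← gX] at h2
        unfold CRO.symp at h2
        rw [real_inner_comm (qq w).2, real_inner_comm (fderiv ℝ (XH G) p (qq w)).2] at h2
        linarith
      rw [e2] at h1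
      exact h1
    have h3 := hd1.unique hd2
    linarith
  refine ⟨p1, p2, p3, p4, p5, ?_, ?_⟩
  · intro x u v
    rw [p5, p4, map_zero, inner_zero_left]
  · have e : (fun q : V d × V d × V d × V d => Riem G q.1 q.2.1 q.2.2.1 q.2.2.2) = fun q =>
        fderiv ℝ (fun q : V d × V d × V d => Chr G q.1 q.2.1 q.2.2) (q.1, q.2.2.1, q.2.2.2) (q.2.1, 0, 0) -
          fderiv ℝ (fun q : V d × V d × V d => Chr G q.1 q.2.1 q.2.2) (q.1, q.2.1, q.2.2.2) (q.2.2.1, 0, 0) +
          Chr G q.1 q.2.1 (Chr G q.1 q.2.2.1 q.2.2.2) - Chr G q.1 q.2.2.1 (Chr G q.1 q.2.1 q.2.2.2) := by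
      funext q
      unfold Riem
      rw [(hfd q.1 q.2.2.1 q.2.2.2 q.2.1).2, (hfd q.1 q.2.1 q.2.2.2 q.2.2.1).2]
    rw [e]
    have h1 : ContDiff ℝ ∞ (fderiv ℝ (fun q : V d × V d × V d => Chr G q.1 q.2.1 q.2.2)) := (contDiff_infty_iff_fderiv.1 hsm).2
    have c1 : ContDiff ℝ ∞ (fun q : V d × V d × V d × V d => q.1) := contDiff_fst
    have c2 : ContDiff ℝ ∞ (fun q : V d × V d × V d × V d => q.2.1) := contDiff_fst.comp contDiff_snd
    have c3 : ContDiff ℝ ∞ (fun q : V d × V d × V d × V d => q.2.2.1) := contDiff_fst.comp (contDiff_snd.comp contDiff_snd)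
    have c4 : ContDiff ℝ ∞ (fun q : V d × V d × V d × V d => q.2.2.2) := contDiff_snd.comp (contDiff_snd.comp contDiff_snd)
    have f1 : ∀ a b e : V d × V d × V d × V d → V d, ContDiff ℝ ∞ a → ContDiff ℝ ∞ b → ContDiff ℝ ∞ e → ContDiff ℝ ∞ (fun q => Chr G (a q) (b q) (e q)) := by
      intro a b e ha hb he
      exact hsm.comp (ha.prodMk (hb.prodMk he))
    have f2 : ∀ a b e g : V d × V d × V d × V d → V d, ContDiff ℝ ∞ a → ContDiff ℝ ∞ b → ContDiff ℝ ∞ e → ContDiff ℝ ∞ g →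
        ContDiff ℝ ∞ (fun q => fderiv ℝ (fun q : V d × V d × V d => Chr G q.1 q.2.1 q.2.2) (a q, b q, e q) (g q, 0, 0)) := by
      intro a b e g ha hb he hg'
      exact (h1.comp (ha.prodMk (hb.prodMk he))).clm_apply (hg'.prodMk (contDiff_const.prodMk contDiff_const))
    exact (((f2 _ _ _ _ c1 c3 c4 c2).sub (f2 _ _ _ _ c1 c2 c4 c3)).add (f1 _ _ _ c1 c2 (f1 _ _ _ c1 c3 c4))).sub (f1 _ _ _ c1 c3 (f1 _ _ _ c1 c2 c4))

end

end Pool.Agent.VD
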