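import Pool.Agent.helper84.VD.SpecB2

/-!
# Project VD (MP_07c750_an), row SPR: existence and regularity of the Poincare map
-/

set_option autoImplicit false

open scoped ContDiff Topology InnerProductSpace ENNReal
open MeasureTheory Filter Set

namespace Pool.Agent.VD

noncomputable section

theorem SPR_small (l : List ℝ) (h : ∀ x ∈ l, 0 < x) : ∃ ρ : ℝ, 0 < ρ ∧ ∀ x ∈ l, ρ ≤ x := by
  induction l with
  | nil => exact ⟨1, one_pos, by simp⟩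
  | cons a l ih =>
    obtain ⟨ρ, h1, h2⟩ := ih (fun x hx => h x (List.mem_cons_of_mem _ hx))
    refine ⟨min a ρ, lt_min (h a (List.mem_cons_self)) h1, ?_⟩
    intro x hx
    rcases List.mem_cons.1 hx with hx | hx
    · rw [hx]; exact min_le_left _ _
    · exact (min_le_right _ _).trans (h2 x hx)

theorem SPR_rec {A B : Type} [NormedAddCommGroup A] [NormedSpace ℝ A] [NormedAddCommGroup B] [NormedSpace ℝ B] {M r : ℝ} {a0 : A} {f : A → B}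
    (h : C11 M r a0 f) (a1 : A) (r' : ℝ) (hr : ‖a1 - a0‖ + r' ≤ r) : C11 M r' a1 f := by
  have key : ∀ a : A, ‖a - a1‖ ≤ r' → ‖a - a0‖ ≤ r := by
    intro a ha
    have h1 : a - a0 = (a - a1) + (a1 - a0) := by abel
    rw [h1]
    exact (norm_add_le _ _).trans (by linarith)
  exact ⟨fun a ha => h.dif a (key a ha), fun a ha => h.bd a (key a ha), fun a b ha hb => h.lip a b (key a ha) (key b hb)⟩

theorem SPR_mono (x : ℝ) (hx : 1 ≤ x) : x ≤ x ^ 3 + x ^ 2 := by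
  have h1 : x * 1 ≤ x * x := mul_le_mul_of_nonneg_left hx (by linarith)
  have h2 : 0 ≤ x ^ 3 := by positivity
  nlinarith

theorem SPR_proof (hSC1 : SC1_stmt) (hSIM : SIM_stmt) (hSFD : SFD_stmt) (hSFI : SFI_stmt) : SPR_stmt := by
  intro m C C' r hC hC' hr
  obtain ⟨MF, hMF, hF⟩ := hSFI m C hC
  obtain ⟨K1, hK1⟩ : ∃ K1 : ℝ, K1 = C + C' := ⟨_, rfl⟩
  obtain ⟨K2, hK2⟩ : ∃ K2 : ℝ, K2 = K1 ^ 3 + K1 ^ 2 := ⟨_, rfl⟩
  obtain ⟨K4, hK4⟩ : ∃ K4 : ℝ, K4 = K2 ^ 3 + K2 ^ 2 := ⟨_, rfl⟩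
  obtain ⟨K5, hK5⟩ : ∃ K5 : ℝ, K5 = K4 ^ 3 + K4 ^ 2 := ⟨_, rfl⟩
  have i1 : 2 ≤ K1 := by linarith
  have i2 : K1 ≤ K2 := by rw [hK2]; exact SPR_mono _ (by linarith)
  have i4 : K2 ≤ K4 := by rw [hK4]; exact SPR_mono _ (by linarith)
  have i5 : K4 ≤ K5 := by rw [hK5]; exact SPR_mono _ (by linarith)
  have iC4 : C ≤ K4 := by linarith
  obtain ⟨r3, hr3⟩ : ∃ r3 : ℝ, r3 = min (r / K1) (1 / C) := ⟨_, rfl⟩
  have r3p : 0 < r3 := by rw [hr3]; exact lt_min (div_pos hr (by linarith)) (by positivity)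
  obtain ⟨r4, hr4⟩ : ∃ r4 : ℝ, r4 = r3 / K2 := ⟨_, rfl⟩
  have r4p : 0 < r4 := by rw [hr4]; exact div_pos r3p (by linarith)
  obtain ⟨r5, hr5⟩ : ∃ r5 : ℝ, r5 = r4 / K4 := ⟨_, rfl⟩
  have r5p : 0 < r5 := by rw [hr5]; exact div_pos r4p (by linarith)
  have r54 : r5 ≤ r4 := by rw [hr5]; exact div_le_self r4p.le (by linarith)
  obtain ⟨M', r', ρs, hM', hr'0, hr'r, hρs0, hρsr, hS⟩ := hSIM K5 r5 (by linarith) r5p
  obtain ⟨K6, hK6⟩ : ∃ K6 : ℝ, K6 = M' + K4 := ⟨_, rfl⟩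
  obtain ⟨r6, hr6⟩ : ∃ r6 : ℝ, r6 = min r' (r4 / 2) := ⟨_, rfl⟩
  have r6p : 0 < r6 := by rw [hr6]; exact lt_min hr'0 (by positivity)
  have r6a : r6 ≤ r' := by rw [hr6]; exact min_le_left _ _
  have r6b : r6 ≤ r4 / 2 := by rw [hr6]; exact min_le_right _ _
  obtain ⟨K7, hK7⟩ : ∃ K7 : ℝ, K7 = K6 ^ 3 + K6 ^ 2 := ⟨_, rfl⟩
  obtain ⟨r7, hr7⟩ : ∃ r7 : ℝ, r7 = r6 / K6 := ⟨_, rfl⟩
  have i6 : K6 ≤ K7 := by rw [hK7]; exact SPR_mono _ (by linarith)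
  have r7p : 0 < r7 := by rw [hr7]; exact div_pos r6p (by linarith)
  obtain ⟨K8, hK8⟩ : ∃ K8 : ℝ, K8 = K7 + MF := ⟨_, rfl⟩
  obtain ⟨K9, hK9⟩ : ∃ K9 : ℝ, K9 = K8 ^ 3 + K8 ^ 2 := ⟨_, rfl⟩
  obtain ⟨r9, hr9⟩ : ∃ r9 : ℝ, r9 = r7 / K8 := ⟨_, rfl⟩
  have i9 : K8 ≤ K9 := by rw [hK9]; exact SPR_mono _ (by linarith)
  have r9p : 0 < r9 := by rw [hr9]; exact div_pos r7p (by linarith)
  obtain ⟨K10, hK10⟩ : ∃ K10 : ℝ, K10 = C + (C + 1) * K4 + K4 := ⟨_, rfl⟩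
  obtain ⟨K11, hK11⟩ : ∃ K11 : ℝ, K11 = M' * K10 := ⟨_, rfl⟩
  obtain ⟨K12, hK12⟩ : ∃ K12 : ℝ, K12 = K4 * (K11 + 1) + 1 := ⟨_, rfl⟩
  obtain ⟨K13, hK13⟩ : ∃ K13 : ℝ, K13 = MF * K12 := ⟨_, rfl⟩
  have p4 : 0 < K4 := by linarith
  have p10 : 0 < K10 := by rw [hK10]; positivity
  have p11 : 0 < K11 := by rw [hK11]; positivity
  have p12 : 0 < K12 := by rw [hK12]; positivity
  have p13 : 0 < K13 := by rw [hK13]; positivity
  obtain ⟨ρ, hρ, hρl⟩ := SPR_small [r, 1, 1 / C, 1 / (2 * C ^ 2), r' / C, r4 / (2 * (M' * C)), r4, r', r9, r / C' / (2 * K12), r / (2 * K13)] (by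
    intro x hx
    simp only [List.mem_cons, List.not_mem_nil, or_false] at hx
    rcases hx with h | h | h | h | h | h | h | h | h | h | h <;> rw [h] <;> positivity)
  have l1 : ρ ≤ r := hρl _ (by simp)
  have l2 : ρ ≤ 1 := hρl _ (by simp)
  have l3 : ρ ≤ 1 / C := hρl _ (by simp)
  have l4 : ρ ≤ 1 / (2 * C ^ 2) := hρl _ (by simp)
  have l5 : ρ ≤ r' / C := hρl _ (by simp)
  have l6 : ρ ≤ r4 / (2 * (M' * C)) := hρl _ (by simp)
  have l7 : ρ ≤ r4 := hρl _ (by simp)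
  have l8 : ρ ≤ r' := hρl _ (by simp)
  have l9 : ρ ≤ r9 := hρl _ (by simp)
  have l10 : ρ ≤ r / C' / (2 * K12) := hρl _ (by simp)
  have l11 : ρ ≤ r / (2 * K13) := hρl _ (by simp)
  refine ⟨K9 + K11 + K13 + M', ρ, by linarith, hρ, l1, ?_⟩
  intro Γ _ _ K G Φ D hG z hz z' hz' e e' κ κ' hFz hFz' hκ hκ' γ t ht1 ht2 hj
  obtain ⟨z1, hz1⟩ : ∃ z1 : P (m + 1), z1 = MM Φ γ (t, z) := ⟨_, rfl⟩
  obtain ⟨j0, hj0⟩ : ∃ j0 : ℝ, j0 = ‖MM Φ γ (t, z) - z'‖ := ⟨_, rfl⟩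
  have hj00 : 0 ≤ j0 := by rw [hj0]; exact norm_nonneg _
  have hjz1 : ‖z1 - z'‖ = j0 := by rw [hz1, hj0]
  rw [← hj0] at hj ⊢
  have hκz : κ 0 = z := hκ.zero
  -- N
  have hMM : C11 C (1 / C) (t, z) (MM Φ γ) := by
    have hbm := hG.bm γ z hz z' hz' t (by rw [abs_le]; constructor <;> linarith) (by rw [← hj0]; exact hj.trans l3)
    refine ⟨fun q _ => (hG.dif γ).differentiable (by simp) q, fun q hq => (hbm q q hq hq).1, fun q q' hq hq' => (hbm q q' hq hq').2⟩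
  have hB : C11 K2 (r / K1) (t, 0) (fun q : ℝ × Z m => (q.1, κ q.2)) := by
    have s1 := hSC1 (ℝ × Z m) (Z m) (P (m + 1)) K1 r (t, 0) (by linarith) hr
    have c1 : C11 K1 r (t, (0 : Z m)) (fun q : ℝ × Z m => q.2) := by
      have h := s1.2.2.2.1 (ContinuousLinearMap.snd ℝ ℝ (Z m)) 0 ((ContinuousLinearMap.norm_snd_le ℝ ℝ (Z m)).trans (by linarith))
      simpa using h
    have c2 : C11 K1 r 0 κ := (hSC1 (Z m) (P (m + 1)) (P (m + 1)) C' r 0 hC' hr).2.2.2.2 κ K1 r hκ.c11 (by linarith) le_rfl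
    have c3 := s1.2.1 (fun q : ℝ × Z m => q.2) κ c1 c2
    have c4 : C11 (K1 ^ 3 + K1 ^ 2) (r / K1) (t, (0 : Z m)) (fun q : ℝ × Z m => q.1) := by
      have h := (hSC1 (ℝ × Z m) ℝ (P (m + 1)) (K1 ^ 3 + K1 ^ 2) (r / K1) (t, 0) (by rw [← hK2]; linarith) (div_pos hr (by linarith))).2.2.2.1
        (ContinuousLinearMap.fst ℝ ℝ (Z m)) 0 ((ContinuousLinearMap.norm_fst_le ℝ ℝ (Z m)).trans (by rw [← hK2]; linarith))
      simpa using h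
    rw [hK2]
    exact (hSC1 (ℝ × Z m) ℝ (P (m + 1)) (K1 ^ 3 + K1 ^ 2) (r / K1) (t, 0) (by rw [← hK2]; linarith) (div_pos hr (by linarith))).2.2.1 _ _ c4 c3
  have hN : C11 K4 r4 (t, 0) (fun q : ℝ × Z m => MM Φ γ (q.1, κ q.2)) := by
    have c1 : C11 K2 r3 (t, 0) (fun q : ℝ × Z m => (q.1, κ q.2)) := SPR_rec hB (t, 0) r3 (by
      rw [sub_self, norm_zero, zero_add, hr3]; exact min_le_left _ _)
    have c2 : C11 K2 r3 ((fun q : ℝ × Z m => (q.1, κ q.2)) (t, 0)) (MM Φ γ) := by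
      show C11 K2 r3 (t, κ 0) (MM Φ γ)
      rw [hκz]
      exact (hSC1 (ℝ × P (m + 1)) (P (m + 1)) (P (m + 1)) C (1 / C) (t, z) hC (by positivity)).2.2.2.2 (MM Φ γ) K2 r3 hMM (by linarith)
        (by rw [hr3]; exact min_le_right _ _)
    have c3 := (hSC1 (ℝ × Z m) (ℝ × P (m + 1)) (P (m + 1)) K2 r3 (t, 0) (by linarith) r3p).2.1 _ _ c1 c2
    rw [hK4, hr4]
    exact c3
  -- g
  obtain ⟨g, hg⟩ : ∃ g : ℝ × Z m → ℝ, g = fun q => ⟪z'.2, (MM Φ γ (q.1, κ q.2)).1 - z'.1⟫_ℝ := ⟨_, rfl⟩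
  obtain ⟨L, hL⟩ : ∃ L : P (m + 1) →L[ℝ] ℝ, L = (innerSL ℝ z'.2).comp (ContinuousLinearMap.fst ℝ (V (m + 1)) (V (m + 1))) := ⟨_, rfl⟩
  have hLa : ∀ p : P (m + 1), L p = ⟪z'.2, p.1⟫_ℝ := by
    intro p
    rw [hL]
    rfl
  obtain ⟨bz2, -, -, -, -⟩ := hG.b0 z' hz'
  have hLn : ‖L‖ ≤ C := by
    refine L.opNorm_le_bound (by linarith) ?_
    intro p
    rw [hLa, Real.norm_eq_abs]
    calc |⟪z'.2, p.1⟫_ℝ| ≤ ‖z'.2‖ * ‖p.1‖ := abs_real_inner_le_norm _ _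
      _ ≤ C * ‖p‖ := mul_le_mul bz2 (norm_fst_le p) (norm_nonneg _) (by linarith)
  have hgL : g = fun q : ℝ × Z m => L (MM Φ γ (q.1, κ q.2)) + -⟪z'.2, z'.1⟫_ℝ := by
    rw [hg]
    funext q
    rw [hLa, inner_sub_right]
    ring
  have hgc : C11 K5 r5 (t, 0) g := by
    have s1 := hSC1 (ℝ × Z m) (P (m + 1)) ℝ K4 r4 (t, 0) (by linarith) r4p
    have c2 := (hSC1 (P (m + 1)) ℝ ℝ K4 r4 (MM Φ γ (t, κ 0)) (by linarith) r4p).2.2.2.1 L (-⟪z'.2, z'.1⟫_ℝ) (hLn.trans iC4)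
    have c3 := s1.2.1 _ _ hN c2
    rw [hgL, hK5, hr5]
    exact c3
  -- derivatives
  have hκd : HasFDerivAt κ (fderiv ℝ κ 0) 0 := (hκ.c11.dif 0 (by simpa using hr.le)).hasFDerivAt
  have hMd : HasFDerivAt (MM Φ γ) (fderiv ℝ (MM Φ γ) (t, z)) (t, κ 0) := by
    rw [hκz]
    exact ((hG.dif γ).differentiable (by simp) (t, z)).hasFDerivAt
  obtain ⟨DB, hDB⟩ : ∃ DB : ℝ × Z m →L[ℝ] ℝ × P (m + 1), DB = (ContinuousLinearMap.fst ℝ ℝ (Z m)).prod ((fderiv ℝ κ 0).comp (ContinuousLinearMap.snd ℝ ℝ (Z m))) := ⟨_, rfl⟩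
  have hBd : HasFDerivAt (fun q : ℝ × Z m => (q.1, κ q.2)) DB (t, 0) := by
    rw [hDB]
    exact hasFDerivAt_fst.prodMk (HasFDerivAt.comp (f := fun q : ℝ × Z m => q.2) (g := κ) (t, (0 : Z m)) hκd hasFDerivAt_snd)
  have hNd : HasFDerivAt (fun q : ℝ × Z m => MM Φ γ (q.1, κ q.2)) ((fderiv ℝ (MM Φ γ) (t, z)).comp DB) (t, 0) :=
    HasFDerivAt.comp (f := fun q : ℝ × Z m => (q.1, κ q.2)) (g := MM Φ γ) (t, (0 : Z m)) hMd hBd
  have hgd : HasFDerivAt g (L.comp ((fderiv ℝ (MM Φ γ) (t, z)).comp DB)) (t, 0) := by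
    rw [hgL]
    exact (L.hasFDerivAt.comp (t, (0 : Z m)) hNd).add_const _
  -- the derivative of g in the direction of time
  have hChT : ∀ x ξ : V (m + 1), ChT G x 0 ξ = 0 := by
    intro x ξ
    have h := hG.ws x ξ 0 (ChT G x 0 ξ)
    rw [inner_zero_right] at h
    exact inner_self_eq_zero.1 h
  have hWc0 : ∀ (p : P (m + 1)) (η : V (m + 1)), Wc G p (0, η) = η := by
    intro p η
    unfold Wc
    rw [hChT, sub_zero]
  have hvel : ∀ (p : P (m + 1)) (η : V (m + 1)), ⟪η, vel G p⟫_ℝ = fderiv ℝ (Ham G) p (0, η) := by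
    intro p η
    rw [hG.dh, hWc0]
  obtain ⟨-, -, -, -, hv1, -, -⟩ := hSFD m G z' e' hG.met hz'.2 hFz'
  have hg1 : 1 / K5 ≤ fderiv ℝ g (t, 0) (1, 0) := by
    have e1 : fderiv ℝ g (t, 0) (1, 0) = ⟪z'.2, vel G z1⟫_ℝ := by
      rw [hgd.fderiv]
      show L (fderiv ℝ (MM Φ γ) (t, z) (DB (1, 0))) = _
      have e2 : DB (1, 0) = (1, 0) := by
        rw [hDB]
        simp
      rw [e2, hG.mx, hLa, ← hz1]
      rfl
    rw [e1, hvel]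
    have e3 : fderiv ℝ (Ham G) z' (0, z'.2) = 1 := by rw [← hvel, hv1]
    have b1 := (hG.bh z' hz' z1 z' (by rw [hjz1]; exact hj.trans l2) (by simp)).2
    rw [hjz1] at b1
    have b2 : |(fderiv ℝ (Ham G) z1 - fderiv ℝ (Ham G) z') (0, z'.2)| ≤ C * j0 * C := by
      rw [← Real.norm_eq_abs]
      refine ((fderiv ℝ (Ham G) z1 - fderiv ℝ (Ham G) z').le_opNorm _).trans ?_
      refine mul_le_mul b1 ?_ (norm_nonneg _) (by positivity)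
      rw [Prod.norm_mk, norm_zero]
      exact max_le (by linarith) bz2
    have b3 : (fderiv ℝ (Ham G) z1 - fderiv ℝ (Ham G) z') (0, z'.2) = fderiv ℝ (Ham G) z1 (0, z'.2) - 1 := by
      rw [← e3]
      rfl
    rw [b3] at b2
    have b4 : C * j0 * C ≤ 1 / 2 := by
      have h1 : j0 ≤ 1 / (2 * C ^ 2) := hj.trans l4
      rw [le_div_iff₀ (by positivity)] at h1
      have h2 : C * j0 * C = j0 * (2 * C ^ 2) / 2 := by ring
      linarith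
    have b5 := (abs_le.1 b2).1
    have b6 : 1 / K5 ≤ 1 / 2 := one_div_le_one_div_of_le (by norm_num) (by linarith)
    linarith
  have hg0 : |g (t, 0)| ≤ C * j0 := by
    have e1 : g (t, 0) = ⟪z'.2, (z1 - z').1⟫_ℝ := by
      rw [hg, hz1]
      show ⟪z'.2, (MM Φ γ (t, κ 0)).1 - z'.1⟫_ℝ = _
      rw [hκz]
      rfl
    rw [e1]
    calc |⟪z'.2, (z1 - z').1⟫_ℝ| ≤ ‖z'.2‖ * ‖(z1 - z').1‖ := abs_real_inner_le_norm _ _
      _ ≤ C * j0 := mul_le_mul bz2 ((norm_fst_le _).trans hjz1.le) (norm_nonneg _) (by linarith)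
  obtain ⟨τ, hτc, hτ⟩ := hS (Z m) g t 0 hgc hg1 (hg0.trans (by
    have h1 : j0 ≤ r' / C := hj.trans l5
    rw [le_div_iff₀ (by linarith)] at h1
    linarith))
  -- derivative of the chart
  have hev : ∀ᶠ b : Z m in 𝓝 0, ‖b‖ ≤ r := by
    have h1 : Metric.closedBall (0 : Z m) r ∈ 𝓝 (0 : Z m) := Metric.closedBall_mem_nhds _ hr
    filter_upwards [h1] with b hb
    rwa [mem_closedBall_zero_iff] at hb
  have hk1 : ∀ a : Z m, (fderiv ℝ κ 0 a).1 = e a.1 := by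
    have h1 : HasFDerivAt (fun b : Z m => (κ b).1) ((ContinuousLinearMap.fst ℝ (V (m + 1)) (V (m + 1))).comp (fderiv ℝ κ 0)) 0 :=
      (ContinuousLinearMap.fst ℝ (V (m + 1)) (V (m + 1))).hasFDerivAt.comp 0 hκd
    have h2 : HasFDerivAt (fun b : Z m => z.1 + e b.1) (e.comp (ContinuousLinearMap.fst ℝ (W m) (W m))) 0 :=
      (e.comp (ContinuousLinearMap.fst ℝ (W m) (W m))).hasFDerivAt.const_add z.1
    have h3 : (fun b : Z m => (κ b).1) =ᶠ[𝓝 0] fun b : Z m => z.1 + e b.1 := by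
      filter_upwards [hev] with b hb
      exact (hκ.on b hb).2.1
    have h4 := (h2.congr_of_eventuallyEq h3).unique h1
    intro a
    have h5 := congrArg (fun L : Z m →L[ℝ] V (m + 1) => L a) h4
    exact h5.symm
  have hHam : ∀ p : P (m + 1), nrm G p = 1 → Ham G p = 1 / 2 := by
    intro p hp
    unfold nrm at hp
    unfold Ham
    rw [Real.sqrt_eq_one] at hp
    rw [hp]
  have hk2 : ∀ a : Z m, fderiv ℝ (Ham G) z (fderiv ℝ κ 0 a) = 0 := by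
    have h1 : HasFDerivAt (fun b : Z m => Ham G (κ b)) ((fderiv ℝ (Ham G) z).comp (fderiv ℝ κ 0)) 0 := by
      have h0 : HasFDerivAt (Ham G) (fderiv ℝ (Ham G) z) (κ 0) := by
        rw [hκz]
        exact (hG.hs.differentiable (by simp) z).hasFDerivAt
      exact HasFDerivAt.comp (0 : Z m) h0 hκd
    have h3 : (fun b : Z m => Ham G (κ b)) =ᶠ[𝓝 0] fun _ : Z m => (1 / 2 : ℝ) := by
      filter_upwards [hev] with b hb
      exact hHam _ (hκ.on b hb).1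
    have h4 := ((hasFDerivAt_const (1 / 2 : ℝ) (0 : Z m)).congr_of_eventuallyEq h3).unique h1
    intro a
    have h5 := congrArg (fun L : Z m →L[ℝ] ℝ => L a) h4
    exact h5.symm
  -- bound of g (t, a)
  have hz12 : ‖z1.2‖ ≤ C + 1 := by
    have h1 : z1.2 = z'.2 + (z1 - z').2 := by
      show z1.2 = z'.2 + (z1.2 - z'.2)
      abel
    rw [h1]
    refine (norm_add_le _ _).trans ?_
    have h2 := (norm_snd_le (z1 - z')).trans hjz1.le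
    linarith
  have hgt : ∀ a : Z m, ‖a‖ ≤ ρ → |g (t, a)| ≤ K10 * (‖a‖ ^ 2 + j0) := by
    intro a ha
    have ha1 : ‖a‖ ≤ 1 := ha.trans l2
    have hna : ‖((t, a) : ℝ × Z m) - (t, 0)‖ = ‖a‖ := by
      rw [Prod.mk_sub_mk, sub_self, sub_zero, Prod.norm_mk, norm_zero]
      exact max_eq_right (norm_nonneg _)
    have s1 := (hSC1 (ℝ × Z m) (P (m + 1)) ℝ K4 r4 (t, 0) (by linarith) r4p).1 _ hN (t, a) (t, 0) (by rw [hna]; exact ha.trans l7)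
      (by rw [sub_self, norm_zero]; exact r4p.le)
    rw [hna, hNd.fderiv] at s1
    obtain ⟨s2, s3⟩ := s1
    obtain ⟨w, hw⟩ : ∃ w : P (m + 1), w = MM Φ γ (t, κ a) := ⟨_, rfl⟩
    have e1 : (MM Φ γ (t, κ 0)) = z1 := by rw [hκz, hz1]
    have s2' : ‖w - z1‖ ≤ K4 * ‖a‖ := by
      rw [hw, ← e1]
      exact s2
    obtain ⟨v, hv⟩ : ∃ v : P (m + 1), v = fderiv ℝ (MM Φ γ) (t, z) (0, fderiv ℝ κ 0 a) := ⟨_, rfl⟩
    have e2 : ((fderiv ℝ (MM Φ γ) (t, z)).comp DB) (((t, a) : ℝ × Z m) - (t, 0)) = v := by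
      rw [hv]
      show fderiv ℝ (MM Φ γ) (t, z) (DB (((t, a) : ℝ × Z m) - (t, 0))) = _
      have e3 : DB (((t, a) : ℝ × Z m) - (t, 0)) = (0, fderiv ℝ κ 0 a) := by
        rw [hDB]
        simp
      rw [e3]
    have s3' : ‖w - z1 - v‖ ≤ K4 * ‖a‖ ^ 2 := by
      rw [e2] at s3
      rw [hw, ← e1]
      exact s3
    have e4 : ⟪z1.2, v.1⟫_ℝ = 0 := by
      have h1 := hG.al γ t z (fderiv ℝ κ 0 a) (hk2 a)
      rw [← hz1, ← hv] at h1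
      rw [h1, hk1, hFz.ort]
    have e5 : g (t, a) = ⟪z'.2, (z1 - z').1⟫_ℝ + (⟪z1.2, (w - z1 - v).1⟫_ℝ - ⟪(z1 - z').2, (w - z1).1⟫_ℝ) := by
      have h1 : g (t, a) = ⟪z'.2, w.1 - z'.1⟫_ℝ := by rw [hg, hw]
      have h2 : ⟪z1.2, (w - z1 - v).1⟫_ℝ = ⟪z1.2, (w - z1).1⟫_ℝ := by
        show ⟪z1.2, (w - z1).1 - v.1⟫_ℝ = _
        rw [inner_sub_right, e4, sub_zero]
      rw [h1, h2]
      show ⟪z'.2, w.1 - z'.1⟫_ℝ = ⟪z'.2, z1.1 - z'.1⟫_ℝ + (⟪z1.2, w.1 - z1.1⟫_ℝ - ⟪z1.2 - z'.2, w.1 - z1.1⟫_ℝ)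
      rw [inner_sub_left]
      have h3 : w.1 - z'.1 = (z1.1 - z'.1) + (w.1 - z1.1) := by abel
      rw [h3, inner_add_right]
      ring
    have a1 : |⟪z'.2, (z1 - z').1⟫_ℝ| ≤ C * j0 :=
      (abs_real_inner_le_norm _ _).trans (mul_le_mul bz2 ((norm_fst_le _).trans hjz1.le) (norm_nonneg _) (by linarith))
    have a2 : |⟪z1.2, (w - z1 - v).1⟫_ℝ| ≤ (C + 1) * (K4 * ‖a‖ ^ 2) :=
      (abs_real_inner_le_norm _ _).trans (mul_le_mul hz12 ((norm_fst_le _).trans s3') (norm_nonneg _) (by linarith))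
    have a3 : |⟪(z1 - z').2, (w - z1).1⟫_ℝ| ≤ j0 * (K4 * ‖a‖) :=
      (abs_real_inner_le_norm _ _).trans (mul_le_mul ((norm_snd_le _).trans hjz1.le) ((norm_fst_le _).trans s2') (norm_nonneg _) hj00)
    rw [e5]
    have a4 := abs_add_le ⟪z'.2, (z1 - z').1⟫_ℝ (⟪z1.2, (w - z1 - v).1⟫_ℝ - ⟪(z1 - z').2, (w - z1).1⟫_ℝ)
    have a5 := abs_sub ⟪z1.2, (w - z1 - v).1⟫_ℝ ⟪(z1 - z').2, (w - z1).1⟫_ℝ
    have a6 : j0 * (K4 * ‖a‖) ≤ j0 * K4 := by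
      refine mul_le_mul_of_nonneg_left ?_ hj00
      exact mul_le_of_le_one_right p4.le ha1
    have a7 : 0 ≤ C * ‖a‖ ^ 2 := by positivity
    have a8 : 0 ≤ (C + 1) * K4 * j0 := by positivity
    have a9 : 0 ≤ K4 * ‖a‖ ^ 2 := by positivity
    rw [hK10]
    have e6 : (C + (C + 1) * K4 + K4) * (‖a‖ ^ 2 + j0) =
        C * ‖a‖ ^ 2 + C * j0 + (C + 1) * (K4 * ‖a‖ ^ 2) + (C + 1) * K4 * j0 + K4 * ‖a‖ ^ 2 + j0 * K4 := by ring
    rw [e6]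
    linarith
  have hτb : ∀ a : Z m, ‖a‖ ≤ ρ → |τ a - t| ≤ K11 * (‖a‖ ^ 2 + j0) := by
    intro a ha
    have h1 := (hτ a (by rw [sub_zero]; exact ha.trans l8)).2.2.1
    refine h1.trans ?_
    rw [hK11, mul_assoc]
    exact mul_le_mul_of_nonneg_left (hgt a ha) (by linarith)
  -- the point q
  have hqd : ∀ a : Z m, ‖a‖ ≤ ρ → ‖MM Φ γ (τ a, κ a) - z'‖ ≤ K12 * (‖a‖ + j0) := by
    intro a ha
    have ha1 : ‖a‖ ≤ 1 := ha.trans l2
    have hb := hτb a ha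
    have hb2 := (hτ a (by rw [sub_zero]; exact ha.trans l8)).1
    have hnb : ‖((τ a, a) : ℝ × Z m) - (t, 0)‖ = max |τ a - t| ‖a‖ := by
      rw [Prod.mk_sub_mk, sub_zero, Prod.norm_mk, Real.norm_eq_abs]
    have s1 := ((hSC1 (ℝ × Z m) (P (m + 1)) ℝ K4 r4 (t, 0) (by linarith) r4p).1 _ hN (τ a, a) (t, 0) (by
      rw [hnb]; exact max_le (hb2.trans (hρsr.trans r54)) (ha.trans l7)) (by rw [sub_self, norm_zero]; exact r4p.le)).1
    rw [hnb] at s1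
    have e1 : (MM Φ γ (t, κ 0)) = z1 := by rw [hκz, hz1]
    have s2 : ‖MM Φ γ (τ a, κ a) - z1‖ ≤ K4 * max |τ a - t| ‖a‖ := by
      rw [← e1]
      exact s1
    have s3 : max |τ a - t| ‖a‖ ≤ (K11 + 1) * (‖a‖ + j0) := by
      have h2 : ‖a‖ ^ 2 ≤ ‖a‖ := by
        rw [sq]
        exact mul_le_of_le_one_left (norm_nonneg _) ha1
      have h3 : K11 * (‖a‖ ^ 2 + j0) ≤ K11 * (‖a‖ + j0) := mul_le_mul_of_nonneg_left (by linarith) p11.le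
      have h4 : 0 ≤ K11 * (‖a‖ + j0) := by positivity
      have h5 := norm_nonneg a
      have h6 : (K11 + 1) * (‖a‖ + j0) = K11 * (‖a‖ + j0) + ‖a‖ + j0 := by ring
      rw [h6]
      refine max_le ?_ ?_
      · linarith
      · linarith
    have e2 : MM Φ γ (τ a, κ a) - z' = (MM Φ γ (τ a, κ a) - z1) + (z1 - z') := by abel
    rw [e2]
    refine (norm_add_le _ _).trans ?_
    rw [hjz1]
    have s4 : K4 * max |τ a - t| ‖a‖ ≤ K4 * ((K11 + 1) * (‖a‖ + j0)) := mul_le_mul_of_nonneg_left s3 p4.le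
    have h5 := norm_nonneg a
    rw [hK12]
    have h6 : (K4 * (K11 + 1) + 1) * (‖a‖ + j0) = K4 * ((K11 + 1) * (‖a‖ + j0)) + ‖a‖ + j0 := by ring
    rw [h6]
    linarith
  obtain ⟨hlin, -, -, -, -, hLLn, -, -⟩ := hF Γ K G Φ D hG z' hz' e' hFz'
  obtain ⟨Lc, hLc⟩ : ∃ Lc : P (m + 1) →L[ℝ] Z m, Lc = LinearMap.mkContinuous (hlin.mk' _) MF hLLn := ⟨_, rfl⟩
  have hLca : ∀ v, Lc v = LL G z' e' v := by
    intro v
    rw [hLc]
    rfl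
  have hLcn : ‖Lc‖ ≤ MF := by
    rw [hLc]
    exact LinearMap.mkContinuous_norm_le _ (by linarith) _
  obtain ⟨F, hFd⟩ : ∃ F : Z m → Z m, F = fun a => LL G z' e' (MM Φ γ (τ a, κ a) - z') := ⟨_, rfl⟩
  have hFL : F = fun a => Lc (MM Φ γ (τ a, κ a)) + -Lc z' := by
    rw [hFd]
    funext a
    rw [← hLca, map_sub, sub_eq_add_neg]
  -- regularity
  have hτ0 : |τ 0 - t| ≤ r4 / 2 := by
    have h1 := (hτ 0 (by rw [sub_zero, norm_zero]; exact hr'0.le)).2.2.1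
    refine h1.trans ?_
    have h2 : j0 ≤ r4 / (2 * (M' * C)) := hj.trans l6
    rw [le_div_iff₀ (by positivity)] at h2
    have h3 : M' * |g (t, 0)| ≤ M' * (C * j0) := mul_le_mul_of_nonneg_left hg0 (by linarith)
    have h4 : M' * (C * j0) = j0 * (2 * (M' * C)) / 2 := by ring
    linarith
  have hT : C11 K6 r6 0 (fun a : Z m => (τ a, a)) := by
    have c1 : C11 K6 r6 0 τ := (hSC1 (Z m) ℝ ℝ M' r' 0 hM' hr'0).2.2.2.2 τ K6 r6 hτc (by linarith) r6a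
    have s1 := hSC1 (Z m) ℝ (Z m) K6 r6 0 (by linarith) r6p
    have c2 : C11 K6 r6 (0 : Z m) (fun a : Z m => a) := by
      have h := (hSC1 (Z m) (Z m) (Z m) K6 r6 0 (by linarith) r6p).2.2.2.1 (ContinuousLinearMap.id ℝ (Z m)) 0
        (ContinuousLinearMap.norm_id_le.trans (by linarith))
      simpa using h
    exact s1.2.2.1 _ _ c1 c2
  have hq : C11 K7 r7 0 (fun a : Z m => MM Φ γ (τ a, κ a)) := by
    have c1 : C11 K4 r6 ((fun a : Z m => (τ a, a)) 0) (fun q : ℝ × Z m => MM Φ γ (q.1, κ q.2)) := SPR_rec hN _ r6 (by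
      show ‖((τ 0, (0 : Z m)) : ℝ × Z m) - (t, 0)‖ + r6 ≤ r4
      rw [Prod.mk_sub_mk, sub_zero, Prod.norm_mk, norm_zero, Real.norm_eq_abs, max_eq_left (abs_nonneg _)]
      linarith)
    have c2 : C11 K6 r6 ((fun a : Z m => (τ a, a)) 0) (fun q : ℝ × Z m => MM Φ γ (q.1, κ q.2)) :=
      (hSC1 (ℝ × Z m) (P (m + 1)) (P (m + 1)) K4 r6 _ (by linarith) r6p).2.2.2.2 _ K6 r6 c1 (by linarith) le_rfl
    have c3 := (hSC1 (Z m) (ℝ × Z m) (P (m + 1)) K6 r6 0 (by linarith) r6p).2.1 _ _ hT c2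
    rw [hK7, hr7]
    exact c3
  have hFc : C11 K9 r9 0 F := by
    have c1 : C11 K8 r7 0 (fun a : Z m => MM Φ γ (τ a, κ a)) :=
      (hSC1 (Z m) (P (m + 1)) (P (m + 1)) K7 r7 0 (by linarith) r7p).2.2.2.2 _ K8 r7 hq (by linarith) le_rfl
    have c2 := (hSC1 (P (m + 1)) (Z m) (Z m) K8 r7 (MM Φ γ (τ 0, κ 0)) (by linarith) r7p).2.2.2.1 Lc (-Lc z') (hLcn.trans (by linarith))
    have c3 := (hSC1 (Z m) (P (m + 1)) (Z m) K8 r7 0 (by linarith) r7p).2.1 _ _ c1 c2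
    rw [hFL, hK9, hr9]
    exact c3
  have hFb : ∀ a : Z m, ‖a‖ ≤ ρ → ‖F a‖ ≤ K13 * (‖a‖ + j0) := by
    intro a ha
    rw [hFd, hK13, mul_assoc]
    exact (hLLn _).trans (mul_le_mul_of_nonneg_left (hqd a ha) (by linarith))
  refine ⟨F, τ, ?_, ?_, ?_, ?_⟩
  · exact (hSC1 (Z m) (Z m) (Z m) K9 r9 0 (by linarith) r9p).2.2.2.2 F _ ρ hFc (by linarith) l9
  · exact (hSC1 (Z m) ℝ ℝ M' r' 0 hM' hr'0).2.2.2.2 τ _ ρ hτc (by linarith) l8
  · have h1 := hFb 0 (by rw [norm_zero]; exact hρ.le)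
    rw [norm_zero, zero_add] at h1
    refine h1.trans (mul_le_mul_of_nonneg_right (by linarith) hj00)
  · intro a ha
    have hq1 : nrm G (MM Φ γ (τ a, κ a)) = 1 := by
      rw [(hG.hm γ (τ a) (κ a)).1]
      exact (hκ.on a (ha.trans l1)).1
    have hq2 : ⟪z'.2, (MM Φ γ (τ a, κ a)).1 - z'.1⟫_ℝ = 0 := by
      have h1 := (hτ a (by rw [sub_zero]; exact ha.trans l8)).2.1
      rw [hg] at h1
      exact h1
    have hq3 := hqd a ha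
    have h2 : ‖a‖ + j0 ≤ 2 * ρ := by linarith
    refine ⟨?_, ?_, ?_, ?_⟩
    · rw [hFd]
      refine hκ'.un _ hq1 (hq3.trans ?_) hq2
      have h3 : K12 * (‖a‖ + j0) ≤ K12 * (2 * ρ) := mul_le_mul_of_nonneg_left h2 p12.le
      rw [le_div_iff₀ (by positivity)] at l10
      linarith
    · exact (hτb a ha).trans (mul_le_mul_of_nonneg_right (by linarith) (by positivity))
    · exact (hFb a ha).trans (mul_le_mul_of_nonneg_right (by linarith) (by positivity))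
    · refine (hFb a ha).trans ?_
      have h3 : K13 * (‖a‖ + j0) ≤ K13 * (2 * ρ) := mul_le_mul_of_nonneg_left h2 p13.le
      rw [le_div_iff₀ (by positivity)] at l11
      linarith

end

end Pool.Agent.VD
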