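import Pool.Agent.helper11.VD.SpecR
import Pool.Agent.helper96.VN.TLN

/-! Row TLD of project VD (MP_07c750_an): tails of the random series. -/

set_option autoImplicit false

open scoped ContDiff Topology InnerProductSpace ENNReal
open MeasureTheory Filter Set

namespace Pool.Agent.VD

open Pool.Agent.RPQ (PN PJ UN upd)
open Pool.Agent.VQ (rk)
open Pool.Agent.VN (aN TLN_exp TLN_tail TLN_pow)

theorem TLD_cd {d J : ℕ} (χ : Fin J → V d → ℝ) (ξ : Fin J → ℝ) (a : ℝ) (h : ∀ j, ContDiff ℝ ∞ (χ j)) :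
    ContDiff ℝ ∞ (fun x => a * VF χ ξ x) := by
  unfold VF
  exact contDiff_const.mul (ContDiff.sum fun j _ => contDiff_const.mul (h j))

theorem TLD_inv {d : ℕ} {Γ : Type} [Group Γ] [MulAction Γ (V d)] {J : ℕ} (χ : Fin J → V d → ℝ) (ξ : Fin J → ℝ) (a : ℝ)
    (h : ∀ j, Inv Γ (χ j)) : Inv Γ (fun x => a * VF χ ξ x) := by
  intro γ x
  have e : VF χ ξ (γ • x) = VF χ ξ x := Finset.sum_congr rfl fun j _ => by rw [h j γ x]
  show a * VF χ ξ (γ • x) = a * VF χ ξ x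
  rw [e]

theorem TLD_proof (hSRD : SRD_stmt) : TLD_stmt := by
  intro d Γ _ _ K0 C k0 J p χ hFd hF
  obtain ⟨c, C', hsum, hc0, hck, hcb⟩ := hF.sum K0 hFd.compact
  obtain ⟨η, hη⟩ : ∃ η : ℝ, ∑' k, c 0 k + ∑' k, c 1 k + ∑' k, c 2 k = η := ⟨_, rfl⟩
  have hts : ∀ n, 0 ≤ ∑' k, c n k := fun n => tsum_nonneg (hc0 n)
  have hηn : ∀ n ≤ 2, ∑' k, c n k ≤ η := by
    intro n hn
    have h0 := hts 0
    have h1 := hts 1
    have h2 := hts 2
    interval_cases n <;> linarith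
  have hη0 : 0 ≤ η := (hts 0).trans (hηn 0 (by norm_num))
  -- the levels
  have hχ : ∀ (k : ℕ) (j : Fin (J k)), ContDiff ℝ ∞ (χ k j) ∧ Inv Γ (χ k j) := by
    intro k j
    rcases lt_or_ge k k0 with hk | hk
    · exfalso
      have h1 := j.2
      have h2 := hF.zero k hk
      omega
    · exact ⟨(hF.net k hk).smooth j, (hF.net k hk).inv j⟩
  have hcd : ∀ (ζ : ℕ × ℕ → ℝ) (k : ℕ), ContDiff ℝ ∞ (lD χ ζ k) := fun ζ k => TLD_cd _ _ _ fun j => (hχ k j).1
  have hcda : ∀ (ζ : ℕ × ℕ → ℝ) (k n : ℕ) (x : V d), ContDiffAt ℝ n (lD χ ζ k) x := fun ζ k n x =>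
    ((hcd ζ k).of_le (by exact_mod_cast le_top)).contDiffAt
  have hinv : ∀ (ζ : ℕ × ℕ → ℝ) (k : ℕ), Inv Γ (lD χ ζ k) := fun ζ k => TLD_inv _ _ _ fun j => (hχ k j).2
  have hbd : ∀ (ζ : ℕ × ℕ → ℝ), (∀ q, |ζ q| ≤ 1) → ∀ k, ∀ x ∈ K0, |lD χ ζ k x| ≤ c 0 k := by
    intro ζ hζ k x hx
    have h := hck 0 k ζ hζ x hx
    rwa [norm_iteratedFDeriv_zero, Real.norm_eq_abs] at h
  obtain ⟨A0, hA0, ht0⟩ := TLN_tail (c 0) C' (1 / 400) (by norm_num) (by norm_num) (hsum 0) (hc0 0) (hcb 0 (by norm_num))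
  obtain ⟨A1, hA1, ht1⟩ := TLN_tail (c 1) C' (1 / 400) (by norm_num) (by norm_num) (hsum 1) (hc0 1) (hcb 1 (by norm_num))
  obtain ⟨A3, hA3, ht3⟩ := TLN_tail (c 2) C' (1 / 400) (by norm_num) (by norm_num) (hsum 2) (hc0 2) (hcb 2 le_rfl)
  obtain ⟨A2, hA2, ht2⟩ := TLN_tail (c 0) C' (1 / 8) (by norm_num) (by norm_num) (hsum 0) (hc0 0) (hcb 0 (by norm_num))
  have htn : ∀ n ≤ 2, ∀ N : ℕ, ∑' k, c n (k + N) ≤ (A0 + A1 + A3) * ((2 : ℝ) ^ N) ^ (-(1 - 1 / 400 : ℝ)) := by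
    intro n hn N
    have hp : 0 ≤ ((2 : ℝ) ^ N) ^ (-(1 - 1 / 400 : ℝ)) := Real.rpow_nonneg (by positivity) _
    interval_cases n
    · exact (ht0 N).trans (mul_le_mul_of_nonneg_right (by linarith) hp)
    · exact (ht1 N).trans (mul_le_mul_of_nonneg_right (by linarith) hp)
    · exact (ht3 N).trans (mul_le_mul_of_nonneg_right (by linarith) hp)
  obtain ⟨A, hAd⟩ : ∃ A : ℝ, A = A0 + A1 + A3 := ⟨_, rfl⟩
  rw [← hAd] at htn
  have hA : 0 ≤ A := by rw [hAd]; positivity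
  -- large R
  have hlarge : ∀ a x : ℝ, 0 < x → ∀ᶠ R : ℝ in atTop, a ≤ R ^ x := fun a x hx =>
    (tendsto_rpow_atTop hx).eventually (eventually_ge_atTop a)
  obtain ⟨R0, hR0⟩ := eventually_atTop.1 ((hlarge (4 * A) (1 / 400) (by norm_num)).and ((hlarge (32 * A2) (1 / 2) (by norm_num)).and
    (hlarge (2 * η) 7 (by norm_num))))
  refine ⟨max 3 R0, le_max_left _ _, fun R K hR hK1 hK2 => ?_⟩
  have hR3 : 3 ≤ R := (le_max_left _ _).trans hR
  have hRp : 0 < R := by linarith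
  obtain ⟨g0, g2, g3⟩ := hR0 R ((le_max_right _ _).trans hR)
  -- finite sums
  have hfin : ∀ n : ℕ, ∑ k ∈ Finset.Ioc K (4 * K), c n k ≤ ∑' k, c n (k + K) := by
    intro n
    have hs : Summable fun k => c n (k + K) := (summable_nat_add_iff K).2 (hsum n)
    have h1 : ∑ k ∈ Finset.Ioc K (4 * K), c n k ≤ ∑ k ∈ Finset.range (3 * K + 1), c n (k + K) := by
      have h2 : Finset.Ioc K (4 * K) ⊆ (Finset.range (3 * K + 1)).map (addRightEmbedding K) := by
        intro k hk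
        rw [Finset.mem_Ioc] at hk
        rw [Finset.mem_map]
        refine ⟨k - K, Finset.mem_range.2 (by omega), ?_⟩
        show k - K + K = k
        omega
      refine (Finset.sum_le_sum_of_subset_of_nonneg h2 fun i _ _ => hc0 n i).trans (le_of_eq ?_)
      rw [Finset.sum_map]
      rfl
    exact h1.trans (hs.sum_le_tsum _ fun i _ => hc0 n _)
  have hmain : 2 * (A * ((2 : ℝ) ^ K) ^ (-(1 - 1 / 400 : ℝ))) ≤ R ^ (-1 + 1 / 200 : ℝ) := by
    have h1 := TLN_pow R (1 - 1 / 400) K hR3 hK2 (by norm_num)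
    have h2 : (2 : ℝ) ^ (1 - 1 / 400 : ℝ) ≤ 2 := by
      calc (2 : ℝ) ^ (1 - 1 / 400 : ℝ) ≤ (2 : ℝ) ^ (1 : ℝ) := Real.rpow_le_rpow_of_exponent_le (by norm_num) (by norm_num)
        _ = 2 := Real.rpow_one 2
    have h3 : 0 ≤ R ^ (-(1 - 1 / 400 : ℝ)) := Real.rpow_nonneg hRp.le _
    calc 2 * (A * ((2 : ℝ) ^ K) ^ (-(1 - 1 / 400 : ℝ))) ≤ 2 * (A * (2 ^ (1 - 1 / 400 : ℝ) * R ^ (-(1 - 1 / 400 : ℝ)))) := by
          have := mul_le_mul_of_nonneg_left h1 hA
          linarith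
      _ ≤ 2 * (A * (2 * R ^ (-(1 - 1 / 400 : ℝ)))) := by
          have := mul_le_mul_of_nonneg_left (mul_le_mul_of_nonneg_right h2 h3) hA
          linarith
      _ = 4 * A * R ^ (-(1 - 1 / 400 : ℝ)) := by ring
      _ ≤ R ^ (1 / 400 : ℝ) * R ^ (-(1 - 1 / 400 : ℝ)) := mul_le_mul_of_nonneg_right g0 h3
      _ = R ^ (-1 + 1 / 200 : ℝ) := by
          rw [← Real.rpow_add hRp]
          congr 1
          norm_num
  have hA1 : 0 ≤ A * ((2 : ℝ) ^ K) ^ (-(1 - 1 / 400 : ℝ)) := mul_nonneg hA (Real.rpow_nonneg (by positivity) _)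
  refine ⟨fun v hv n hn x hx => ?_, ?_⟩
  · have e : iteratedFDeriv ℝ n (wD χ K v) x = ∑ k ∈ Finset.Ioc K (4 * K), iteratedFDeriv ℝ n (lD χ v k) x :=
      iteratedFDeriv_fun_sum_apply (fun k _ => hcda v k n x)
    rw [e]
    calc ‖∑ k ∈ Finset.Ioc K (4 * K), iteratedFDeriv ℝ n (lD χ v k) x‖ ≤ ∑ k ∈ Finset.Ioc K (4 * K), ‖iteratedFDeriv ℝ n (lD χ v k) x‖ := norm_sum_le _ _
      _ ≤ ∑ k ∈ Finset.Ioc K (4 * K), c n k := Finset.sum_le_sum fun k _ => hck n k v hv x hx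
      _ ≤ ∑' k, c n (k + K) := hfin n
      _ ≤ A * ((2 : ℝ) ^ K) ^ (-(1 - 1 / 400 : ℝ)) := htn n hn K
      _ ≤ _ := by linarith
  · intro ζ v hζ hv hζv
    have hm0 : 0 < R ^ (-10 : ℝ) := Real.rpow_pos_of_pos hRp _
    have hR3p : 0 < R ^ (-3 : ℝ) := Real.rpow_pos_of_pos hRp _
    have hp6 : 2 * (R ^ (-10 : ℝ) * η) ≤ R ^ (-3 : ℝ) := by
      calc 2 * (R ^ (-10 : ℝ) * η) = 2 * η * R ^ (-10 : ℝ) := by ring
        _ ≤ R ^ (7 : ℝ) * R ^ (-10 : ℝ) := mul_le_mul_of_nonneg_right g3 hm0.le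
        _ = R ^ (-3 : ℝ) := by
            rw [← Real.rpow_add hRp]
            congr 1
            norm_num
    have hp8 : 2 * (R ^ (-10 : ℝ) * η) ≤ R ^ (-1 + 1 / 200 : ℝ) :=
      hp6.trans (Real.rpow_le_rpow_of_exponent_le (by linarith) (by norm_num))
    -- one level
    have hlev : ∀ k : ℕ, k ≤ 4 * K → k ≠ K → ∃ u : ℕ × ℕ → ℝ, (∀ q, |u q| ≤ 1) ∧ ∀ x, lD χ ζ k x - lD χ v k x = R ^ (-10 : ℝ) * lD χ u k x := by
      intro k hk1 hk2
      classical
      obtain ⟨u, hu⟩ : ∃ u : ℕ × ℕ → ℝ, u = fun q => if q.1 = k ∧ q.2 < J q.1 then (ζ q - v q) / R ^ (-10 : ℝ) else 0 := ⟨_, rfl⟩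
      refine ⟨u, ?_, ?_⟩
      · intro q
        rw [hu]
        by_cases hq : q.1 = k ∧ q.2 < J q.1
        · simp only [if_pos hq]
          rw [abs_div, abs_of_pos hm0, div_le_one hm0, abs_sub_comm]
          exact hζv q (by omega) (by omega) hq.2
        · simp only [if_neg hq]
          norm_num
      · intro x
        unfold lD VF
        rw [← mul_sub, ← Finset.sum_sub_distrib, ← mul_assoc, mul_comm (R ^ (-10 : ℝ)), mul_assoc]
        congr 1
        rw [Finset.mul_sum]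
        refine Finset.sum_congr rfl fun j _ => ?_
        have h1 : u (k, (j : ℕ)) = (ζ (k, (j : ℕ)) - v (k, (j : ℕ))) / R ^ (-10 : ℝ) := by
          rw [hu]
          exact if_pos ⟨rfl, j.2⟩
        show ζ (k, (j : ℕ)) * χ k j x - v (k, (j : ℕ)) * χ k j x = R ^ (-10 : ℝ) * (u (k, (j : ℕ)) * χ k j x)
        rw [h1, ← mul_assoc, mul_div_cancel₀ _ hm0.ne', ← sub_mul]
    have hsr := hSRD d (fun k => lD χ ζ k) (fun k => hcd ζ k) (by
      intro L hL
      obtain ⟨c', C'', h1, _, h3, _⟩ := hF.sum L hL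
      exact ⟨c', h1, fun n k => h3 n k ζ hζ⟩)
    obtain ⟨hr1, hr2, hr3⟩ := hsr
    refine ⟨?_, ?_⟩
    · intro n hn x hx
      -- derivatives of the difference
      have hd : ∀ k : ℕ, k < K → ‖iteratedFDeriv ℝ n (lD χ ζ k) x - iteratedFDeriv ℝ n (lD χ v k) x‖ ≤ R ^ (-10 : ℝ) * c n k := by
        intro k hk
        obtain ⟨u, hu1, hu2⟩ := hlev k (by omega) (by omega)
        have e1 : (fun y => lD χ ζ k y - lD χ v k y) = fun y => R ^ (-10 : ℝ) • lD χ u k y := by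
          funext y
          rw [hu2 y, smul_eq_mul]
        have e2 : iteratedFDeriv ℝ n (lD χ ζ k) x - iteratedFDeriv ℝ n (lD χ v k) x = R ^ (-10 : ℝ) • iteratedFDeriv ℝ n (lD χ u k) x := by
          rw [← fun_iteratedFDeriv_sub_apply (hcda ζ k n x) (hcda v k n x), e1, iteratedFDeriv_const_smul_apply' (hcda u k n x)]
        rw [e2, norm_smul, Real.norm_of_nonneg hm0.le]
        exact mul_le_mul_of_nonneg_left (hck n k u hu1 x hx) hm0.le
      have hrc : ContDiffAt ℝ n (rD χ ζ) x := ((hr1.of_le (by exact_mod_cast le_top)).contDiffAt)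
      have hbc : ContDiffAt ℝ n (bD χ K v) x := ContDiffAt.sum fun k _ => hcda v k n x
      have hbe : iteratedFDeriv ℝ n (bD χ K v) x = ∑ k ∈ Finset.range K, iteratedFDeriv ℝ n (lD χ v k) x :=
        iteratedFDeriv_fun_sum_apply (fun k _ => hcda v k n x)
      have hre : iteratedFDeriv ℝ n (rD χ ζ) x = ∑' k, iteratedFDeriv ℝ n (lD χ ζ k) x := hr3 x n
      have hsm : Summable fun k => iteratedFDeriv ℝ n (lD χ ζ k) x := (hsum n).of_norm_bounded (fun k => hck n k ζ hζ x hx)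
      have hs4 : Summable fun k => c n (k + K) := (summable_nat_add_iff K).2 (hsum n)
      rw [fun_iteratedFDeriv_sub_apply hrc hbc, hbe, hre, ← hsm.sum_add_tsum_nat_add K, add_sub_right_comm, ← Finset.sum_sub_distrib]
      have h1 : ‖∑ k ∈ Finset.range K, (iteratedFDeriv ℝ n (lD χ ζ k) x - iteratedFDeriv ℝ n (lD χ v k) x)‖ ≤ R ^ (-10 : ℝ) * η := by
        calc ‖∑ k ∈ Finset.range K, (iteratedFDeriv ℝ n (lD χ ζ k) x - iteratedFDeriv ℝ n (lD χ v k) x)‖ ≤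
              ∑ k ∈ Finset.range K, ‖iteratedFDeriv ℝ n (lD χ ζ k) x - iteratedFDeriv ℝ n (lD χ v k) x‖ := norm_sum_le _ _
          _ ≤ ∑ k ∈ Finset.range K, R ^ (-10 : ℝ) * c n k := Finset.sum_le_sum fun k hk => hd k (Finset.mem_range.1 hk)
          _ = R ^ (-10 : ℝ) * ∑ k ∈ Finset.range K, c n k := (Finset.mul_sum _ _ _).symm
          _ ≤ R ^ (-10 : ℝ) * η := mul_le_mul_of_nonneg_left (((hsum n).sum_le_tsum _ fun i _ => hc0 n i).trans (hηn n hn)) hm0.le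
      have h2 : ‖∑' k, iteratedFDeriv ℝ n (lD χ ζ (k + K)) x‖ ≤ ∑' k, c n (k + K) :=
        tsum_of_norm_bounded hs4.hasSum (fun k => hck n (k + K) ζ hζ x hx)
      have h3 := htn n hn K
      have h4 := norm_add_le (∑ k ∈ Finset.range K, (iteratedFDeriv ℝ n (lD χ ζ k) x - iteratedFDeriv ℝ n (lD χ v k) x))
        (∑' k, iteratedFDeriv ℝ n (lD χ ζ (k + K)) x)
      linarith
    · -- values; first on K0
      have hval : ∀ z ∈ K0, |rD χ ζ z - bD χ K v z - (wD χ K v z + aN K * VF (χ K) (fun j => ζ (K, (j : ℕ))) z)| ≤ R ^ (-3 : ℝ) := by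
        intro z hz
        have hone : ∀ k : ℕ, k ≤ 4 * K → k ≠ K → |lD χ ζ k z - lD χ v k z| ≤ R ^ (-10 : ℝ) * c 0 k := by
          intro k hk1 hk2
          obtain ⟨u, hu1, hu2⟩ := hlev k hk1 hk2
          rw [hu2, abs_mul, abs_of_pos hm0]
          exact mul_le_mul_of_nonneg_left (hbd u hu1 k z hz) hm0.le
        have hsl : Summable fun k => lD χ ζ k z := (hsum 0).of_norm_bounded (fun k => hbd ζ hζ k z hz)
        have hsplit : rD χ ζ z = (∑ k ∈ Finset.range K, lD χ ζ k z + lD χ ζ K z + ∑ k ∈ Finset.Ioc K (4 * K), lD χ ζ k z) +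
            ∑' k, lD χ ζ (k + (4 * K + 1)) z := by
          unfold rD
          rw [← hsl.sum_add_tsum_nat_add (4 * K + 1)]
          congr 1
          rw [← Finset.sum_range_succ, Finset.range_eq_Ico, Finset.range_eq_Ico]
          have e : Finset.Ioc K (4 * K) = Finset.Ico (K + 1) (4 * K + 1) := by
            ext k
            rw [Finset.mem_Ioc, Finset.mem_Ico]
            omega
          rw [e]
          exact (Finset.sum_Ico_consecutive _ (by omega) (by omega)).symm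
        have hdiff : rD χ ζ z - bD χ K v z - (wD χ K v z + aN K * VF (χ K) (fun j => ζ (K, (j : ℕ))) z) =
            ∑ k ∈ Finset.range K, (lD χ ζ k z - lD χ v k z) + ∑ k ∈ Finset.Ioc K (4 * K), (lD χ ζ k z - lD χ v k z) +
              ∑' k, lD χ ζ (k + (4 * K + 1)) z := by
          have e : aN K * VF (χ K) (fun j => ζ (K, (j : ℕ))) z = lD χ ζ K z := rfl
          rw [e, hsplit, Finset.sum_sub_distrib, Finset.sum_sub_distrib]
          unfold bD wD
          ring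
        rw [hdiff]
        have hp1 : |∑ k ∈ Finset.range K, (lD χ ζ k z - lD χ v k z)| ≤ R ^ (-10 : ℝ) * ∑ k ∈ Finset.range K, c 0 k := by
          rw [Finset.mul_sum]
          refine (Finset.abs_sum_le_sum_abs _ _).trans (Finset.sum_le_sum fun k hk => ?_)
          rw [Finset.mem_range] at hk
          exact hone k (by omega) (by omega)
        have hp2 : |∑ k ∈ Finset.Ioc K (4 * K), (lD χ ζ k z - lD χ v k z)| ≤ R ^ (-10 : ℝ) * ∑ k ∈ Finset.Ioc K (4 * K), c 0 k := by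
          rw [Finset.mul_sum]
          refine (Finset.abs_sum_le_sum_abs _ _).trans (Finset.sum_le_sum fun k hk => ?_)
          rw [Finset.mem_Ioc] at hk
          exact hone k (by omega) (by omega)
        have hp12 : ∑ k ∈ Finset.range K, c 0 k + ∑ k ∈ Finset.Ioc K (4 * K), c 0 k ≤ η := by
          have hd : Disjoint (Finset.range K) (Finset.Ioc K (4 * K)) := by
            rw [Finset.disjoint_left]
            intro k h1 h2
            rw [Finset.mem_range] at h1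
            rw [Finset.mem_Ioc] at h2
            omega
          rw [← Finset.sum_union hd]
          exact ((hsum 0).sum_le_tsum _ fun i _ => hc0 0 i).trans (hηn 0 (by norm_num))
        have hs4 : Summable fun k => c 0 (k + (4 * K + 1)) := (summable_nat_add_iff (4 * K + 1)).2 (hsum 0)
        have hp3 : |∑' k, lD χ ζ (k + (4 * K + 1)) z| ≤ ∑' k, c 0 (k + (4 * K + 1)) := by
          have h1 : ‖∑' k, lD χ ζ (k + (4 * K + 1)) z‖ ≤ ∑' k, c 0 (k + (4 * K + 1)) :=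
            tsum_of_norm_bounded (f := fun k => lD χ ζ (k + (4 * K + 1)) z) hs4.hasSum
              (fun k => hbd ζ hζ (k + (4 * K + 1)) z hz)
          exact h1
        have hp4 : ∑' k, c 0 (k + (4 * K + 1)) ≤ 16 * A2 * R ^ (-(7 / 2) : ℝ) := by
          refine (ht2 (4 * K + 1)).trans ?_
          have e1 : ((2 : ℝ) ^ (4 * K + 1)) ^ (-(1 - 1 / 8 : ℝ)) ≤ ((2 : ℝ) ^ K) ^ (-(7 / 2) : ℝ) := by
            have e2 : ((2 : ℝ) ^ K) ^ (-(7 / 2) : ℝ) = ((2 : ℝ) ^ (4 * K)) ^ (-(1 - 1 / 8 : ℝ)) := by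
              rw [mul_comm 4 K, pow_mul, ← Real.rpow_natCast ((2 : ℝ) ^ K) 4, ← Real.rpow_mul (by positivity)]
              congr 1
              norm_num
            rw [e2]
            refine Real.rpow_le_rpow_of_nonpos (by positivity) ?_ (by norm_num)
            exact pow_le_pow_right₀ (by norm_num) (by omega)
          have e3 := TLN_pow R (7 / 2) K hR3 hK2 (by norm_num)
          have e4 : (2 : ℝ) ^ (7 / 2 : ℝ) ≤ 16 := by
            calc (2 : ℝ) ^ (7 / 2 : ℝ) ≤ (2 : ℝ) ^ (4 : ℝ) := Real.rpow_le_rpow_of_exponent_le (by norm_num) (by norm_num)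
              _ = 16 := by norm_num
          have e5 : 0 ≤ R ^ (-(7 / 2) : ℝ) := Real.rpow_nonneg hRp.le _
          calc A2 * ((2 : ℝ) ^ (4 * K + 1)) ^ (-(1 - 1 / 8 : ℝ)) ≤ A2 * ((2 : ℝ) ^ K) ^ (-(7 / 2) : ℝ) :=
                mul_le_mul_of_nonneg_left e1 hA2
            _ ≤ A2 * (2 ^ (7 / 2 : ℝ) * R ^ (-(7 / 2) : ℝ)) := mul_le_mul_of_nonneg_left e3 hA2
            _ ≤ A2 * (16 * R ^ (-(7 / 2) : ℝ)) := mul_le_mul_of_nonneg_left (mul_le_mul_of_nonneg_right e4 e5) hA2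
            _ = 16 * A2 * R ^ (-(7 / 2) : ℝ) := by ring
        have hp5 : 2 * (16 * A2 * R ^ (-(7 / 2) : ℝ)) ≤ R ^ (-3 : ℝ) := by
          have e5 : 0 ≤ R ^ (-(7 / 2) : ℝ) := Real.rpow_nonneg hRp.le _
          calc 2 * (16 * A2 * R ^ (-(7 / 2) : ℝ)) = 32 * A2 * R ^ (-(7 / 2) : ℝ) := by ring
            _ ≤ R ^ (1 / 2 : ℝ) * R ^ (-(7 / 2) : ℝ) := mul_le_mul_of_nonneg_right g2 e5
            _ = R ^ (-3 : ℝ) := by
                rw [← Real.rpow_add hRp]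
                congr 1
                norm_num
        have hp7 : R ^ (-10 : ℝ) * (∑ k ∈ Finset.range K, c 0 k + ∑ k ∈ Finset.Ioc K (4 * K), c 0 k) ≤ R ^ (-10 : ℝ) * η :=
          mul_le_mul_of_nonneg_left hp12 hm0.le
        rw [mul_add] at hp7
        have h1 := abs_add_le (∑ k ∈ Finset.range K, (lD χ ζ k z - lD χ v k z) + ∑ k ∈ Finset.Ioc K (4 * K), (lD χ ζ k z - lD χ v k z))
          (∑' k, lD χ ζ (k + (4 * K + 1)) z)
        have h2 := abs_add_le (∑ k ∈ Finset.range K, (lD χ ζ k z - lD χ v k z)) (∑ k ∈ Finset.Ioc K (4 * K), (lD χ ζ k z - lD χ v k z))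
        linarith
      intro x
      obtain ⟨γ, hγ⟩ := hFd.cover x
      have h := hval (γ • x) hγ
      have i1 : rD χ ζ (γ • x) = rD χ ζ x := tsum_congr fun k => hinv ζ k γ x
      have i2 : bD χ K v (γ • x) = bD χ K v x := Finset.sum_congr rfl fun k _ => hinv v k γ x
      have i3 : wD χ K v (γ • x) = wD χ K v x := Finset.sum_congr rfl fun k _ => hinv v k γ x
      have i4 : aN K * VF (χ K) (fun j => ζ (K, (j : ℕ))) (γ • x) = aN K * VF (χ K) (fun j => ζ (K, (j : ℕ))) x := hinv ζ K γ x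
      rw [i1, i2, i3, i4] at h
      exact h

end Pool.Agent.VD
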